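import Pool.Agent.H97.SN.Uni
import Pool.Agent.H97.SM.Det
import Pool.Agent.H41.RC.Tms

/-!
# The running time outside the bad set
-/

set_option autoImplicit false

namespace Pool.Agent.H97.SN

open Pool.Agent.H92.SR Pool.Agent.H97.SM

theorem reps0 {α : Type} [DecidableEq α] (S : Finset α) (f : α → ℕ) :
    ∃ J ⊆ S, Set.InjOn f J ∧ J.image f = S.image f := by
  induction S using Finset.induction_on with
  | empty => exact ⟨∅, Finset.Subset.refl _, by simp, rfl⟩
  | insert a S _ ih =>
    obtain ⟨J, hJ, hi, he⟩ := ih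
    by_cases h : f a ∈ S.image f
    · refine ⟨J, hJ.trans (Finset.subset_insert _ _), hi, ?_⟩
      rw [Finset.image_insert, he, Finset.insert_eq_of_mem h]
    · refine ⟨insert a J, Finset.insert_subset_insert _ hJ, ?_, ?_⟩
      · rw [Finset.coe_insert, Set.injOn_insert]
        · refine ⟨hi, ?_⟩
          rintro ⟨c, hc, hcf⟩
          apply h
          rw [← he, ← hcf]
          exact Finset.mem_image_of_mem _ hc
        · intro ha
          apply h
          rw [← he]
          exact Finset.mem_image_of_mem _ ha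
      · rw [Finset.image_insert, Finset.image_insert, he]

theorem reps {α : Type} [DecidableEq α] {S : Finset α} {f : α → ℕ} {m : ℕ}
    (h : m ≤ (S.image f).card) : ∃ J ⊆ S, J.card = m ∧ Set.InjOn f J := by
  obtain ⟨J, hJ, hi, he⟩ := reps0 S f
  rw [← he, Finset.card_image_of_injOn hi] at h
  obtain ⟨J', hJ', hc⟩ := Finset.exists_subset_card_eq h
  exact ⟨J', hJ'.trans hJ, hc, hi.mono (Finset.coe_subset.2 hJ')⟩

theorem ndet {n r b u : ℕ} {a : Fin n → ℕ} (haA : ∀ i, 1 ≤ a i ∧ a i ≤ 2 ^ b)
    {p : List (Fin n × ℕ)} (hp : ∀ i, tm p i ≤ 2 ^ r) (k : ℕ)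
    (hgood : ∀ J : Finset (Fin n), J.card = 16 * u → (∀ i ∈ J, tm p i ≠ 0) →
      Set.InjOn (fun i => sf (tm p i ^ 2 * a i)) J → k < 2 ^ (n + r + b) →
      1 ≤ |EE (List.ofFn fun i => tm p i ^ 2 * a i) k| *
        2 ^ (1 + (n + r + b + 1) * 4 ^ (16 * u)))
    {T : List ℕ → ℕ → ℕ} {q : Polynomial ℕ}
    (hT : ∀ L k x, 1 ≤ |EE L k| * 2 ^ x → T L k ≤ q.eval (bsz L k + x))
    (hT' : ∀ L k, (∀ a ∈ L, IsSquare a) → T L k ≤ q.eval (bsz L k)) :
    T (p.map fun z => z.2 ^ 2 * a z.1) k ≤
      q.eval (bsz (p.map fun z => z.2 ^ 2 * a z.1) k +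
        (1 + (n * (2 * r + b + 1) + n + r + b + Nat.size k + 1) * 4 ^ (16 * u))) := by
  have hmono : ∀ y ≤ 1 + (n * (2 * r + b + 1) + n + r + b + Nat.size k + 1) * 4 ^ (16 * u),
      q.eval (bsz (p.map fun z => z.2 ^ 2 * a z.1) k + y) ≤
      q.eval (bsz (p.map fun z => z.2 ^ 2 * a z.1) k +
        (1 + (n * (2 * r + b + 1) + n + r + b + Nat.size k + 1) * 4 ^ (16 * u))) :=
    fun y hy => poly_mono q (by omega)
  have hs := sum_le (n := n) hp fun i => (haA i).2
  have hsum : ((p.map fun z => z.2 ^ 2 * a z.1).map fun a : ℕ => √(a : ℝ)).sum + 1 ≤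
      2 ^ (n + r + b) := by
    have e := EE_map p a 0
    rw [ee_of] at e
    unfold EE at e
    linarith
  by_cases hk : k < 2 ^ (n + r + b)
  · by_cases hc : 16 * u ≤ ((Finset.univ.filter fun i => tm p i ≠ 0).image
        fun i => sf (tm p i ^ 2 * a i)).card
    · obtain ⟨J, hJs, hJ, hinj⟩ := reps hc
      have h1 := hgood J hJ (fun i hi => (Finset.mem_filter.1 (hJs hi)).2) hinj hk
      rw [← EE_map] at h1
      refine (hT _ _ _ h1).trans (hmono _ ?_)
      have : (n + r + b + 1) * 4 ^ (16 * u) ≤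
          (n * (2 * r + b + 1) + n + r + b + Nat.size k + 1) * 4 ^ (16 * u) :=
        Nat.mul_le_mul_right _ (by omega)
      omega
    · by_cases hsq : ∀ y ∈ p.map fun z => z.2 ^ 2 * a z.1, IsSquare y
      · exact (hT' _ _ hsq).trans (hmono 0 (Nat.zero_le _))
      · have hsq' : ¬ ∀ y ∈ List.ofFn fun i => tm p i ^ 2 * a i, IsSquare y := by
          intro h
          apply hsq
          intro y hy
          rw [List.mem_map] at hy
          obtain ⟨z, hz, rfl⟩ := hy
          rcases Nat.eq_zero_or_pos z.2 with h0 | h0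
          · exact ⟨0, by rw [h0]; ring⟩
          · obtain ⟨v, hv⟩ := h (tm p z.1 ^ 2 * a z.1) (List.mem_ofFn.2 ⟨z.1, rfl⟩)
            obtain ⟨c, hc⟩ := sq_cls (h0.trans_le (le_tm hz)) squarefree_one
              (show tm p z.1 ^ 2 * a z.1 = v ^ 2 * 1 by rw [hv]; ring)
            exact ⟨z.2 * c, by rw [hc]; ring⟩
        have h2 := Pool.Agent.H41.RC.few_sep (n := n) (N := fun _ => 2 ^ (2 * r + b))
          (x := fun i => tm p i ^ 2 * a i) (fun i => by
            calc tm p i ^ 2 * a i ≤ (2 ^ r) ^ 2 * 2 ^ b :=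
                  Nat.mul_le_mul (Nat.pow_le_pow_left (hp i) 2) (haA i).2
              _ = 2 ^ (2 * r + b) := by rw [← pow_mul, ← pow_add]; congr 1; ring)
          (D := insert 1 ((Finset.univ.filter fun i => tm p i ≠ 0).image
            fun i => sf (tm p i ^ 2 * a i)))
          (Finset.mem_insert_self _ _) (by
            intro c hc
            rcases Finset.mem_insert.1 hc with rfl | hc
            · exact squarefree_one
            · obtain ⟨i, -, rfl⟩ := Finset.mem_image.1 hc
              exact (sf_spec _).2) (by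
            intro i hi
            refine Finset.mem_insert_of_mem (Finset.mem_image.2 ⟨i, ?_, rfl⟩)
            rw [Finset.mem_filter]
            refine ⟨Finset.mem_univ i, fun h0 => hi ?_⟩
            rw [h0]
            ring) (m := 8 * u) (by
            refine (Finset.card_insert_le _ _).trans ?_
            omega) k hsq'
        rw [← EE_map] at h2
        refine (hT _ _ _ h2).trans (hmono _ ?_)
        have h3 : ∑ _i : Fin n, Nat.size (2 ^ (2 * r + b)) = n * (2 * r + b + 1) := by
          rw [Finset.sum_const, Finset.card_univ, Fintype.card_fin, Nat.size_pow, smul_eq_mul]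
        rw [h3]
        have h4 : (n * (2 * r + b + 1) + Nat.size k + 1) * 4 ^ (8 * u) ≤
            (n * (2 * r + b + 1) + n + r + b + Nat.size k + 1) * 4 ^ (16 * u) :=
          Nat.mul_le_mul (by omega) (Nat.pow_le_pow_right (by norm_num) (by omega))
        omega
  · have h1 : 1 ≤ |EE (p.map fun z => z.2 ^ 2 * a z.1) k| * 2 ^ 0 := by
      have h2 : (2 : ℝ) ^ (n + r + b) ≤ k := by exact_mod_cast not_lt.1 hk
      rw [pow_zero, mul_one]
      refine le_trans ?_ (neg_le_abs _)
      unfold EE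
      linarith
    exact (hT _ _ _ h1).trans (hmono 0 (Nat.zero_le _))

end Pool.Agent.H97.SN
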