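import Pool.Agent.H92.SR.Fib
import Pool.Agent.H92.SR.Box

/-!
# The fibres for arbitrary sets of radicands

If the numbers `x j ^ 2 * a j` lie in different square classes, their sum of square roots determines them up to a permutation.
So for fixed other coordinates at most `m ^ m` choices of `m` radicands in different square classes give a sum close to a
given number, whatever the sets `A j` of the allowed radicands are.
-/

set_option autoImplicit false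

namespace Pool.Agent.H97.SN

open Pool.Agent.H92.SR

theorem coef {J : Type} [Fintype J] {a a' : J → ℕ} (h : ∑ j, √(a j : ℝ) = ∑ j, √(a' j : ℝ)) (j0 : J) :
    ∑ j ∈ Finset.univ.filter (fun j => sf (a j) = sf (a j0)), rt (a j) =
      ∑ j ∈ Finset.univ.filter (fun j => sf (a' j) = sf (a j0)), rt (a' j) := by
  classical
  set D : Finset ℕ := Finset.univ.image (fun j => sf (a j)) ∪
    Finset.univ.image (fun j => sf (a' j)) with hDdef
  have hD1 : ∀ j, sf (a j) ∈ D := fun j =>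
    Finset.mem_union_left _ (Finset.mem_image_of_mem _ (Finset.mem_univ j))
  have hD2 : ∀ j, sf (a' j) ∈ D := fun j =>
    Finset.mem_union_right _ (Finset.mem_image_of_mem _ (Finset.mem_univ j))
  have hDs : ∀ d ∈ D, Squarefree d := by
    intro d hd
    rw [hDdef, Finset.mem_union, Finset.mem_image, Finset.mem_image] at hd
    rcases hd with ⟨i, _, rfl⟩ | ⟨i, _, rfl⟩
    · exact (sf_spec _).2
    · exact (sf_spec _).2
  have h1 : ∑ d ∈ D, (((((∑ j ∈ Finset.univ.filter (fun j => sf (a j) = d), rt (a j) : ℕ) : ℤ) -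
      ((∑ j ∈ Finset.univ.filter (fun j => sf (a' j) = d), rt (a' j) : ℕ) : ℤ)) : ℤ) : ℝ) *
      √(d : ℝ) = 0 := by
    rw [← sub_eq_zero, cls_sum a hD1, cls_sum a' hD2, ← Finset.sum_sub_distrib] at h
    rw [← h]
    refine Finset.sum_congr rfl fun d _ => ?_
    push_cast
    ring
  have h2 := ind hDs _ h1 (sf (a j0)) (hD1 j0)
  omega

theorem same {J : Type} [Fintype J] {a a' : J → ℕ} (ha : ∀ j, 1 ≤ a j)
    (hi : Function.Injective fun j => sf (a j)) (hi' : Function.Injective fun j => sf (a' j))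
    (h : ∑ j, √(a j : ℝ) = ∑ j, √(a' j : ℝ)) (j : J) : ∃ i, a j = a' i := by
  classical
  have h1 := coef h j
  have e1 : Finset.univ.filter (fun i => sf (a i) = sf (a j)) = {j} := by
    ext i
    rw [Finset.mem_filter, Finset.mem_singleton]
    constructor
    · rintro ⟨-, h2⟩
      exact hi h2
    · rintro rfl
      exact ⟨Finset.mem_univ _, rfl⟩
  rw [e1, Finset.sum_singleton] at h1
  have hrt : rt (a j) ≠ 0 := by
    intro h0
    have h2 := (sf_spec (a j)).1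
    rw [h0] at h2
    have h3 := ha j
    simp at h2
    omega
  obtain ⟨i, hmem⟩ : (Finset.univ.filter (fun i => sf (a' i) = sf (a j))).Nonempty := by
    rw [Finset.nonempty_iff_ne_empty]
    intro h2
    rw [h2, Finset.sum_empty] at h1
    exact hrt h1
  rw [Finset.mem_filter] at hmem
  have e2 : Finset.univ.filter (fun l => sf (a' l) = sf (a j)) = {i} := by
    ext l
    rw [Finset.mem_filter, Finset.mem_singleton]
    constructor
    · rintro ⟨-, h2⟩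
      exact hi' (h2.trans hmem.2.symm)
    · rintro rfl
      exact hmem
  rw [e2, Finset.sum_singleton] at h1
  refine ⟨i, ?_⟩
  rw [← (sf_spec (a j)).1, ← (sf_spec (a' i)).1, h1, hmem.2]

private theorem sfib_eq {J : Type} [Fintype J] {m : ℕ} (hJ : Fintype.card J = m) {a a' : J → ℕ}
    (F : ℝ) {b : ℕ} (hb : ∑ j, √(a j : ℝ) + ∑ j, √(a' j : ℝ) ≤ 2 ^ b)
    (h : |∑ j, √(a j : ℝ) + F| * 2 ^ (1 + b * 4 ^ m) < 1)
    (h' : |∑ j, √(a' j : ℝ) + F| * 2 ^ (1 + b * 4 ^ m) < 1) :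
    ∑ j, √(a j : ℝ) = ∑ j, √(a' j : ℝ) := by
  by_contra hne
  have h1 := cls_sep hne (one_le_pow₀ (by norm_num : (1 : ℝ) ≤ 2) : (1 : ℝ) ≤ 2 ^ b) hb
  rw [hJ, ← pow_mul] at h1
  have h2 : |∑ j, √(a j : ℝ) - ∑ j, √(a' j : ℝ)| ≤
      |∑ j, √(a j : ℝ) + F| + |∑ j, √(a' j : ℝ) + F| := by
    have h3 : ∑ j, √(a j : ℝ) - ∑ j, √(a' j : ℝ) =
        (∑ j, √(a j : ℝ) + F) - (∑ j, √(a' j : ℝ) + F) := by ring
    rw [h3]
    exact abs_sub _ _
  have h3 : (2 : ℝ) ^ (b * (2 ^ (2 * m) - 1)) ≤ 2 ^ (b * 4 ^ m) := by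
    refine pow_le_pow_right₀ (by norm_num) (Nat.mul_le_mul_left b ?_)
    have : 4 ^ m = 2 ^ (2 * m) := by rw [pow_mul]; norm_num
    rw [this]
    exact Nat.sub_le _ _
  have h4 : (2 : ℝ) ^ (1 + b * 4 ^ m) = 2 * 2 ^ (b * 4 ^ m) := by rw [pow_add, pow_one]
  rw [h4] at h h'
  have h5 : (0 : ℝ) < 2 ^ (b * 4 ^ m) := by positivity
  have h6 := mul_le_mul_of_nonneg_left h3 (abs_nonneg (∑ j, √(a j : ℝ) - ∑ j, √(a' j : ℝ)))
  have h7 := mul_le_mul_of_nonneg_right h2 h5.le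
  nlinarith

open Classical in
theorem nfib {J : Type} [Fintype J] {m : ℕ} (hJ : Fintype.card J = m) {x : J → ℕ}
    (hx : ∀ j, 1 ≤ x j) {A : J → Finset ℕ} (hA : ∀ j, ∀ y ∈ A j, 1 ≤ y) (F : ℝ) {b : ℕ} {V : J → ℕ}
    (hV : ∀ j, ∀ y ∈ A j, y ≤ V j) (hb : ∑ j, 2 * √((x j ^ 2 * V j : ℕ) : ℝ) ≤ 2 ^ b) :
    ((Fintype.piFinset A).filter fun a =>
      (Function.Injective fun j => sf (x j ^ 2 * a j)) ∧
      |∑ j, √((x j ^ 2 * a j : ℕ) : ℝ) + F| * 2 ^ (1 + b * 4 ^ m) < 1).card ≤ m ^ m := by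
  obtain ⟨T, hT⟩ : ∃ T, T = (Fintype.piFinset A).filter fun a =>
      (Function.Injective fun j => sf (x j ^ 2 * a j)) ∧
      |∑ j, √((x j ^ 2 * a j : ℕ) : ℝ) + F| * 2 ^ (1 + b * 4 ^ m) < 1 := ⟨_, rfl⟩
  rw [← hT]
  rcases T.eq_empty_or_nonempty with h0 | ⟨a', ha'⟩
  · rw [h0, Finset.card_empty]
    exact Nat.zero_le _
  have hmem : ∀ a ∈ T, (∀ j, a j ∈ A j) ∧ (Function.Injective fun j => sf (x j ^ 2 * a j)) ∧
      |∑ j, √((x j ^ 2 * a j : ℕ) : ℝ) + F| * 2 ^ (1 + b * 4 ^ m) < 1 := by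
    intro a ha
    rw [hT, Finset.mem_filter, Fintype.mem_piFinset] at ha
    exact ha
  have hsum : ∀ a ∈ T, ∑ j, √((x j ^ 2 * a j : ℕ) : ℝ) ≤ ∑ j, √((x j ^ 2 * V j : ℕ) : ℝ) := by
    intro a ha
    refine Finset.sum_le_sum fun j _ => Real.sqrt_le_sqrt ?_
    exact_mod_cast Nat.mul_le_mul_left _ (hV j _ ((hmem a ha).1 j))
  have hpos : ∀ a ∈ T, ∀ j, 1 ≤ x j ^ 2 * a j := fun a ha j =>
    Nat.mul_pos (pow_pos (hx j) 2) (hA j _ ((hmem a ha).1 j))
  have hex : ∀ a ∈ T, ∃ f : J → J, ∀ j, x j ^ 2 * a j = x (f j) ^ 2 * a' (f j) := by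
    intro a ha
    have heq := sfib_eq hJ F (b := b) (a := fun j => x j ^ 2 * a j)
      (a' := fun j => x j ^ 2 * a' j) (by
      refine le_trans (add_le_add (hsum a ha) (hsum a' ha')) (le_trans (le_of_eq ?_) hb)
      rw [← Finset.sum_add_distrib]
      refine Finset.sum_congr rfl fun j _ => ?_
      ring) (hmem a ha).2.2 (hmem a' ha').2.2
    have h1 := same (a := fun j => x j ^ 2 * a j) (a' := fun j => x j ^ 2 * a' j) (hpos a ha)
      (hmem a ha).2.1 (hmem a' ha').2.1 heq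
    choose f hf using h1
    exact ⟨f, hf⟩
  obtain ⟨g, hg⟩ : ∃ g : (J → ℕ) → J → J, ∀ a ∈ T, ∀ j,
      x j ^ 2 * a j = x (g a j) ^ 2 * a' (g a j) := by
    refine ⟨fun a => if h : a ∈ T then (hex a h).choose else fun j => j, fun a ha j => ?_⟩
    dsimp only
    rw [dif_pos ha]
    exact (hex a ha).choose_spec j
  have h1 : T.card ≤ (Finset.univ : Finset (J → J)).card := by
    refine Finset.card_le_card_of_injOn g (fun a _ => Finset.mem_coe.2 (Finset.mem_univ _)) ?_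
    intro a ha c hc hac
    funext j
    have h2 := hg a ha j
    have h3 := hg c hc j
    rw [hac, ← h3] at h2
    exact Nat.eq_of_mul_eq_mul_left (pow_pos (hx j) 2) h2
  refine h1.trans (le_of_eq ?_)
  rw [Finset.card_univ, Fintype.card_fun, hJ]

open Classical in
theorem nbox {n m : ℕ} {A : Fin n → Finset ℕ} {V x : Fin n → ℕ} {J : Finset (Fin n)}
    (hJ : J.card = m) (hx : ∀ i ∈ J, 1 ≤ x i) (hA : ∀ i, ∀ y ∈ A i, 1 ≤ y ∧ y ≤ V i) (k : ℕ)
    {b : ℕ} (hb : ∑ i, 2 * √((x i ^ 2 * V i : ℕ) : ℝ) ≤ 2 ^ b) :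
    ((Fintype.piFinset A).filter fun a => Set.InjOn (fun i => sf (x i ^ 2 * a i)) J ∧
      |EE (List.ofFn fun i => x i ^ 2 * a i) k| * 2 ^ (1 + b * 4 ^ m) < 1).card ≤
      (∏ i ∈ Jᶜ, (A i).card) * m ^ m := by
  obtain ⟨B, hB⟩ : ∃ B, B = (Fintype.piFinset A).filter fun a =>
      Set.InjOn (fun i => sf (x i ^ 2 * a i)) J ∧
      |EE (List.ofFn fun i => x i ^ 2 * a i) k| * 2 ^ (1 + b * 4 ^ m) < 1 := ⟨_, rfl⟩
  rw [← hB]
  obtain ⟨T, hT⟩ : ∃ T : Finset ({i // i ∈ Jᶜ} → ℕ), T =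
      Fintype.piFinset fun i => A i.1 := ⟨_, rfl⟩
  have hTc : T.card = ∏ i ∈ Jᶜ, (A i).card := by
    rw [hT, Fintype.card_piFinset]
    exact Finset.prod_coe_sort Jᶜ (fun i => (A i).card)
  have hmaps : ∀ a ∈ B, (fun i : {i // i ∈ Jᶜ} => a i.1) ∈ T := by
    intro a ha
    rw [hB, Finset.mem_filter, Fintype.mem_piFinset] at ha
    rw [hT, Fintype.mem_piFinset]
    exact fun i => ha.1 i.1
  have hb' : ∑ j : {j // j ∈ J}, 2 * √((x j.1 ^ 2 * V j.1 : ℕ) : ℝ) ≤ 2 ^ b := by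
    rw [Finset.sum_coe_sort J (fun i => 2 * √((x i ^ 2 * V i : ℕ) : ℝ))]
    refine le_trans ?_ hb
    exact Finset.sum_le_sum_of_subset_of_nonneg (Finset.subset_univ J)
      fun i _ _ => by positivity
  have hfib : ∀ y ∈ T, (B.filter fun a => (fun i : {i // i ∈ Jᶜ} => a i.1) = y).card ≤
      m ^ m := by
    intro y _
    have h1 := nfib (J := {j // j ∈ J}) (m := m) (by rw [Fintype.card_coe, hJ])
      (x := fun j => x j.1) (fun j => hx j.1 j.2) (A := fun j => A j.1)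
      (fun j y hy => (hA j.1 y hy).1)
      (∑ i : {i // i ∈ Jᶜ}, √((x i.1 ^ 2 * y i : ℕ) : ℝ) - k) (V := fun j => V j.1)
      (fun j y hy => (hA j.1 y hy).2) hb'
    refine le_trans ?_ h1
    refine Finset.card_le_card_of_injOn (fun a => fun j : {j // j ∈ J} => a j.1) ?_ ?_
    · intro a ha
      rw [Finset.mem_coe, Finset.mem_filter, hB, Finset.mem_filter] at ha
      obtain ⟨⟨ha1, hinj, ha2⟩, ha3⟩ := ha
      rw [Fintype.mem_piFinset] at ha1
      rw [Finset.mem_coe]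
      simp only [Finset.mem_filter, Fintype.mem_piFinset]
      refine ⟨fun j => ha1 j.1, ?_, ?_⟩
      · intro j j' hjj
        exact Subtype.ext (hinj j.2 j'.2 hjj)
      · have h2 : ∑ j : {j // j ∈ J}, √((x j.1 ^ 2 * a j.1 : ℕ) : ℝ) +
            (∑ i : {i // i ∈ Jᶜ}, √((x i.1 ^ 2 * y i : ℕ) : ℝ) - k) =
            EE (List.ofFn fun i => x i ^ 2 * a i) k := by
          rw [ee_of, ← ha3, Finset.sum_coe_sort J (fun i => √((x i ^ 2 * a i : ℕ) : ℝ)),
            Finset.sum_coe_sort Jᶜ (fun i => √((x i ^ 2 * a i : ℕ) : ℝ)),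
            ← Finset.sum_add_sum_compl J (fun i => √((x i ^ 2 * a i : ℕ) : ℝ))]
          ring
        rw [h2]
        exact ha2
    · intro a ha a' ha' h
      rw [Finset.mem_coe, Finset.mem_filter] at ha ha'
      funext i
      by_cases hi : i ∈ J
      · exact congrFun h ⟨i, hi⟩
      · have h2 := congrFun (ha.2.trans ha'.2.symm) ⟨i, Finset.mem_compl.2 hi⟩
        exact h2
  have hsum : B.card = ∑ y ∈ T, (B.filter fun a => (fun i : {i // i ∈ Jᶜ} => a i.1) = y).card :=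
    Finset.card_eq_sum_card_fiberwise hmaps
  rw [hsum]
  refine (Finset.sum_le_sum hfib).trans (le_of_eq ?_)
  rw [Finset.sum_const, smul_eq_mul, hTc]

open Classical in
/-- `16 u` coordinates with `2 ^ w` possible values each -/
theorem nprob {n u w : ℕ} {A : Fin n → Finset ℕ} {V x : Fin n → ℕ} {J : Finset (Fin n)}
    (hJ : J.card = 16 * u) (huw : (16 * u) ^ 2 ≤ 2 ^ w) (hx : ∀ i ∈ J, 1 ≤ x i)
    (hA : ∀ i, ∀ y ∈ A i, 1 ≤ y ∧ y ≤ V i) (hW : ∀ i, 2 ^ w ≤ (A i).card)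
    (k : ℕ) {b : ℕ} (hb : ∑ i, 2 * √((x i ^ 2 * V i : ℕ) : ℝ) ≤ 2 ^ b) :
    ((Fintype.piFinset A).filter fun a => Set.InjOn (fun i => sf (x i ^ 2 * a i)) J ∧
      |EE (List.ofFn fun i => x i ^ 2 * a i) k| * 2 ^ (1 + b * 4 ^ (16 * u)) < 1).card *
      2 ^ (w * (16 * u)) ≤ 2 ^ (w * (8 * u)) * ∏ i, (A i).card := by
  have h1 := nbox hJ hx hA k hb
  have h2 : 2 ^ (w * (16 * u)) ≤ ∏ i ∈ J, (A i).card := by
    rw [pow_mul, ← hJ]
    exact Finset.pow_card_le_prod J _ _ fun i _ => hW i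
  have h3 : (16 * u) ^ (16 * u) ≤ 2 ^ (w * (8 * u)) := by
    have e : 16 * u = 2 * (8 * u) := by ring
    calc (16 * u) ^ (16 * u) = ((16 * u) ^ 2) ^ (8 * u) := by rw [← pow_mul, ← e]
      _ ≤ (2 ^ w) ^ (8 * u) := Nat.pow_le_pow_left huw _
      _ = 2 ^ (w * (8 * u)) := by rw [← pow_mul]
  calc _ ≤ ((∏ i ∈ Jᶜ, (A i).card) * (16 * u) ^ (16 * u)) * ∏ i ∈ J, (A i).card :=
        Nat.mul_le_mul h1 h2
    _ = (16 * u) ^ (16 * u) * ((∏ i ∈ Jᶜ, (A i).card) * ∏ i ∈ J, (A i).card) := by ring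
    _ = (16 * u) ^ (16 * u) * ∏ i, (A i).card := by rw [Finset.prod_compl_mul_prod]
    _ ≤ 2 ^ (w * (8 * u)) * ∏ i, (A i).card := Nat.mul_le_mul_right _ h3

end Pool.Agent.H97.SN
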