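import Pool.Agent.H97.SN.Det

/-!
# The square-root sum problem: random radicands from arbitrary sets, worst case instances over them
-/

set_option autoImplicit false

namespace Pool.Agent.H97.SN

open Pool.Agent.H92.SR Pool.Agent.H92.SR.Tr Pool.Agent.H97.SM

theorem nsize_le {n r b : ℕ} {a : Fin n → ℕ} (haA : ∀ i, 1 ≤ a i ∧ a i ≤ 2 ^ b)
    {p : List (Fin n × ℕ)} (hp : ∀ i, tm p i ≤ 2 ^ r) (k : ℕ) :
    bsz (p.map fun z => z.2 ^ 2 * a z.1) k ≤
      2 * (p.length + n + b + r + Nat.size k) ^ 2 + 2 * (p.length + n + b + r + Nat.size k) := by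
  have h1 : ((p.map fun z => z.2 ^ 2 * a z.1).map Nat.size).sum ≤ p.length * (2 * r + b + 1) := by
    have h2 := List.sum_le_card_nsmul ((p.map fun z => z.2 ^ 2 * a z.1).map Nat.size)
      (2 * r + b + 1) (by
      intro y hy
      rw [List.mem_map] at hy
      obtain ⟨v, hv, rfl⟩ := hy
      rw [List.mem_map] at hv
      obtain ⟨z, hz, rfl⟩ := hv
      apply Nat.size_le.2
      calc z.2 ^ 2 * a z.1 ≤ (2 ^ r) ^ 2 * 2 ^ b :=
            Nat.mul_le_mul (Nat.pow_le_pow_left ((le_tm hz).trans (hp z.1)) 2) (haA z.1).2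
        _ = 2 ^ (2 * r + b) := by rw [← pow_mul, ← pow_add]; congr 1; ring
        _ < 2 ^ (2 * r + b + 1) := Nat.pow_lt_pow_right (by norm_num) (by omega))
    rw [List.length_map, List.length_map, smul_eq_mul] at h2
    exact h2
  unfold bsz
  rw [List.length_map]
  obtain ⟨s, hs⟩ : ∃ s, s = p.length + n + b + r + Nat.size k := ⟨_, rfl⟩
  rw [← hs]
  have h3 : p.length * (2 * r + b + 1) ≤ s * (2 * s + 1) := Nat.mul_le_mul (by omega) (by omega)
  have h4 : s * (2 * s + 1) = 2 * s ^ 2 + s := by ring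
  omega

open Classical in
theorem sem : ∃ (c : Prog) (T : List ℕ → ℕ → ℕ) (q : Polynomial ℕ) (Λ : ℕ),
    (∀ (L : List ℕ) (k : ℕ),
      Eval c (encI L k) (bit (decide ((L.map fun a : ℕ => √(a : ℝ)).sum ≤ k))) (T L k)) ∧
    ∀ (n r b w u : ℕ) (A : Fin n → Finset ℕ), (16 * u) ^ 2 ≤ 2 ^ w →
      n * (r + 1) + b ≤ u * w → (∀ i, 2 ^ w ≤ (A i).card) →
      (∀ i, ∀ y ∈ A i, 1 ≤ y ∧ y ≤ 2 ^ b) →
      ((Fintype.piFinset A).filter fun a => ∃ (p : List (Fin n × ℕ)) (k : ℕ),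
        (∀ i, tm p i ≤ 2 ^ r) ∧
        q.eval (p.length + n + b + r + Nat.size k) * Λ ^ u <
          T (p.map fun z => z.2 ^ 2 * a z.1) k).card * 2 ^ (5 * u * w) ≤ ∏ i, (A i).card := by
  obtain ⟨c0, T0, q0, hE0, hT0, hT0'⟩ := tim0
  have hev : ∀ s : ℕ, (q0.comp (4 * Polynomial.X ^ 2 + 4 * Polynomial.X + 2)).eval s =
      q0.eval (4 * s ^ 2 + 4 * s + 2) := by
    intro s
    simp [Polynomial.eval_comp]
  have hmain : ∀ (n r b u : ℕ) (a : Fin n → ℕ), (∀ i, 1 ≤ a i ∧ a i ≤ 2 ^ b) →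
      ∀ p : List (Fin n × ℕ), (∀ i, tm p i ≤ 2 ^ r) → ∀ k : ℕ,
      (∀ J : Finset (Fin n), J.card = 16 * u → (∀ i ∈ J, tm p i ≠ 0) →
        Set.InjOn (fun i => sf (tm p i ^ 2 * a i)) J → k < 2 ^ (n + r + b) →
        1 ≤ |EE (List.ofFn fun i => tm p i ^ 2 * a i) k| *
          2 ^ (1 + (n + r + b + 1) * 4 ^ (16 * u))) →
      T0 (p.map fun z => z.2 ^ 2 * a z.1) k ≤
        (q0.comp (4 * Polynomial.X ^ 2 + 4 * Polynomial.X + 2)).eval
          (p.length + n + b + r + Nat.size k) * (4 ^ (16 * q0.natDegree)) ^ u := by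
    intro n r b u a haA p hp k hgood
    have h1 := ndet haA hp k hgood hT0 hT0'
    have h2 := nsize_le haA hp k
    rw [hev]
    obtain ⟨s, hs⟩ : ∃ s, s = p.length + n + b + r + Nat.size k := ⟨_, rfl⟩
    rw [← hs] at h2 ⊢
    have h4 : 1 ≤ 4 ^ (16 * u) := Nat.one_le_pow _ _ (by norm_num)
    have h5 : bsz (p.map fun z => z.2 ^ 2 * a z.1) k +
        (1 + (n * (2 * r + b + 1) + n + r + b + Nat.size k + 1) * 4 ^ (16 * u)) ≤
        (4 * s ^ 2 + 4 * s + 2) * 4 ^ (16 * u) := by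
      have h3 : n * (2 * r + b + 1) ≤ s * (2 * s + 1) := Nat.mul_le_mul (by omega) (by omega)
      have h3' : s * (2 * s + 1) = 2 * s ^ 2 + s := by ring
      have h6 : (n * (2 * r + b + 1) + n + r + b + Nat.size k + 1) * 4 ^ (16 * u) ≤
          (2 * s ^ 2 + 2 * s + 1) * 4 ^ (16 * u) := Nat.mul_le_mul_right _ (by omega)
      have h7 : (2 * s ^ 2 + 2 * s + 1) * 1 ≤ (2 * s ^ 2 + 2 * s + 1) * 4 ^ (16 * u) :=
        Nat.mul_le_mul_left _ h4
      have h8 : (4 * s ^ 2 + 4 * s + 2) * 4 ^ (16 * u) =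
          (2 * s ^ 2 + 2 * s + 1) * 4 ^ (16 * u) + (2 * s ^ 2 + 2 * s + 1) * 4 ^ (16 * u) := by ring
      omega
    have h6 := h1.trans ((poly_mono q0 h5).trans (poly_scale q0 _ h4))
    have h7 : (4 ^ (16 * u)) ^ q0.natDegree = (4 ^ (16 * q0.natDegree)) ^ u := by
      rw [← pow_mul, ← pow_mul]
      congr 1
      ring
    rw [h7] at h6
    exact h6
  refine ⟨c0, T0, q0.comp (4 * Polynomial.X ^ 2 + 4 * Polynomial.X + 2),
    4 ^ (16 * q0.natDegree), fun L k => ?_, ?_⟩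
  · have e : decide ((L.map fun a : ℕ => √(a : ℝ)).sum ≤ k) = decide (EE L k ≤ 0) := by
      apply decide_eq_decide.2
      unfold EE
      rw [sub_nonpos]
    rw [e]
    exact hE0 L k
  intro n r b w u A huw hn hW hA
  have hsub : ((Fintype.piFinset A).filter fun a => ∃ (p : List (Fin n × ℕ)) (k : ℕ),
        (∀ i, tm p i ≤ 2 ^ r) ∧
        (q0.comp (4 * Polynomial.X ^ 2 + 4 * Polynomial.X + 2)).eval
          (p.length + n + b + r + Nat.size k) * (4 ^ (16 * q0.natDegree)) ^ u <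
          T0 (p.map fun z => z.2 ^ 2 * a z.1) k) ⊆
      ((Fintype.piFinset A).filter fun a => ∃ x : Fin n → ℕ, (∀ i, x i ≤ 2 ^ r) ∧
        ∃ J : Finset (Fin n), J.card = 16 * u ∧ (∀ i ∈ J, x i ≠ 0) ∧
        Set.InjOn (fun i => sf (x i ^ 2 * a i)) J ∧ ∃ k < 2 ^ (n + r + b),
        |EE (List.ofFn fun i => x i ^ 2 * a i) k| *
          2 ^ (1 + (n + r + b + 1) * 4 ^ (16 * u)) < 1) := by
    intro a ha
    rw [Finset.mem_filter] at ha ⊢
    obtain ⟨ha, p, k, hp, hlt⟩ := ha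
    refine ⟨ha, ?_⟩
    by_contra hno
    refine absurd (hmain n r b u a (fun i => hA i _ (Fintype.mem_piFinset.1 ha i)) p hp k
      fun J hJ hJ0 hinj hk => ?_) (not_le.2 hlt)
    by_contra h3
    exact hno ⟨tm p, hp, J, hJ, hJ0, hinj, k, hk, not_le.1 h3⟩
  rcases Nat.eq_zero_or_pos u with h0 | hu
  · have h2 : 2 ^ (5 * u * w) = 1 := by rw [h0]; simp
    rw [h2, Nat.mul_one]
    refine (Finset.card_filter_le _ _).trans (le_of_eq ?_)
    rw [Fintype.card_piFinset]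
  have h1 := (Nat.mul_le_mul_right (2 ^ (w * (16 * u))) (Finset.card_le_card hsub)).trans
    (nuni huw hA hW)
  by_cases hn1 : 1 ≤ n
  · have h2 : n + n * (r + 1) + (n + r + b) ≤ 3 * (u * w) := by
      have h3 : 1 * r ≤ n * r := Nat.mul_le_mul_right r hn1
      have h4 : n * (r + 1) = n * r + n := by ring
      omega
    have h3 : 2 ^ (n + n * (r + 1) + (n + r + b)) * (2 ^ (w * (8 * u)) * ∏ i, (A i).card) ≤
        2 ^ (11 * (u * w)) * ∏ i, (A i).card := by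
      rw [← mul_assoc, ← pow_add]
      apply Nat.mul_le_mul_right
      apply Nat.pow_le_pow_right (by norm_num)
      have : w * (8 * u) = 8 * (u * w) := by ring
      omega
    have h4 := h1.trans h3
    have h5 : 2 ^ (w * (16 * u)) = 2 ^ (11 * (u * w)) * 2 ^ (5 * u * w) := by
      rw [← pow_add]
      congr 1
      ring
    rw [h5] at h4
    refine Nat.le_of_mul_le_mul_left
      (?_ : 2 ^ (11 * (u * w)) * _ ≤ 2 ^ (11 * (u * w)) * _) (by positivity)
    refine le_trans (le_of_eq ?_) h4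
    ring
  · have hn0 : n = 0 := by omega
    have h2 : ((Fintype.piFinset A).filter fun a => ∃ x : Fin n → ℕ, (∀ i, x i ≤ 2 ^ r) ∧
        ∃ J : Finset (Fin n), J.card = 16 * u ∧ (∀ i ∈ J, x i ≠ 0) ∧
        Set.InjOn (fun i => sf (x i ^ 2 * a i)) J ∧ ∃ k < 2 ^ (n + r + b),
        |EE (List.ofFn fun i => x i ^ 2 * a i) k| *
          2 ^ (1 + (n + r + b + 1) * 4 ^ (16 * u)) < 1).card = 0 := by
      rw [Finset.card_eq_zero, Finset.filter_eq_empty_iff]
      rintro a - ⟨x, -, J, hJ, -⟩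
      have h2 := Finset.card_le_univ J
      rw [Fintype.card_fin] at h2
      omega
    have h3 := Finset.card_le_card hsub
    rw [h2] at h3
    rw [Nat.le_zero.1 h3, Nat.zero_mul]
    exact Nat.zero_le _

end Pool.Agent.H97.SN
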