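import Pool.Agent.H97.SN.Fib
import Pool.Agent.H97.SM.Uni

/-!
# All sets of coordinates, multipliers and comparison numbers at once
-/

set_option autoImplicit false

namespace Pool.Agent.H97.SN

open Pool.Agent.H92.SR Pool.Agent.H97.SM

open Classical in
theorem nuni {n r b w u : ℕ} {A : Fin n → Finset ℕ} (huw : (16 * u) ^ 2 ≤ 2 ^ w)
    (hA : ∀ i, ∀ y ∈ A i, 1 ≤ y ∧ y ≤ 2 ^ b) (hW : ∀ i, 2 ^ w ≤ (A i).card) :
    ((Fintype.piFinset A).filter fun a => ∃ x : Fin n → ℕ, (∀ i, x i ≤ 2 ^ r) ∧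
      ∃ J : Finset (Fin n), J.card = 16 * u ∧ (∀ i ∈ J, x i ≠ 0) ∧
      Set.InjOn (fun i => sf (x i ^ 2 * a i)) J ∧ ∃ k < 2 ^ (n + r + b),
      |EE (List.ofFn fun i => x i ^ 2 * a i) k| *
        2 ^ (1 + (n + r + b + 1) * 4 ^ (16 * u)) < 1).card *
      2 ^ (w * (16 * u)) ≤
      2 ^ (n + n * (r + 1) + (n + r + b)) * (2 ^ (w * (8 * u)) * ∏ i, (A i).card) := by
  obtain ⟨X, hX⟩ : ∃ X, X = (Fintype.piFinset fun _ : Fin n => Finset.range (2 ^ r + 1)) ×ˢ
      ((Finset.univ : Finset (Finset (Fin n))).filter fun J => J.card = 16 * u) := ⟨_, rfl⟩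
  obtain ⟨bad, hbad⟩ : ∃ bad : ((Fin n → ℕ) × Finset (Fin n)) × ℕ → Finset (Fin n → ℕ),
      bad = fun p => (Fintype.piFinset A).filter fun a => (∀ i ∈ p.1.2, p.1.1 i ≠ 0) ∧
        Set.InjOn (fun i => sf (p.1.1 i ^ 2 * a i)) p.1.2 ∧
        |EE (List.ofFn fun i => p.1.1 i ^ 2 * a i) p.2| *
        2 ^ (1 + (n + r + b + 1) * 4 ^ (16 * u)) < 1 := ⟨_, rfl⟩
  obtain ⟨B, hB⟩ : ∃ B, B = (Fintype.piFinset A).filter fun a => ∃ x : Fin n → ℕ,
      (∀ i, x i ≤ 2 ^ r) ∧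
      ∃ J : Finset (Fin n), J.card = 16 * u ∧ (∀ i ∈ J, x i ≠ 0) ∧
      Set.InjOn (fun i => sf (x i ^ 2 * a i)) J ∧ ∃ k < 2 ^ (n + r + b),
      |EE (List.ofFn fun i => x i ^ 2 * a i) k| *
        2 ^ (1 + (n + r + b + 1) * 4 ^ (16 * u)) < 1 := ⟨_, rfl⟩
  rw [← hB]
  have hsub : B ⊆ (X ×ˢ Finset.range (2 ^ (n + r + b))).biUnion bad := by
    intro a ha
    rw [hB, Finset.mem_filter] at ha
    obtain ⟨h1, x, hx, J, hJ, hJx, hinj, k, hk, h2⟩ := ha
    rw [Finset.mem_biUnion]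
    refine ⟨((x, J), k), ?_, ?_⟩
    · rw [Finset.mem_product, hX, Finset.mem_product, Fintype.mem_piFinset, Finset.mem_filter]
      refine ⟨⟨fun i => ?_, Finset.mem_univ _, hJ⟩, Finset.mem_range.2 hk⟩
      rw [Finset.mem_range]
      exact Nat.lt_succ_of_le (hx i)
    · rw [hbad, Finset.mem_filter]
      exact ⟨h1, hJx, hinj, h2⟩
  have hone : ∀ p ∈ X ×ˢ Finset.range (2 ^ (n + r + b)),
      (bad p).card * 2 ^ (w * (16 * u)) ≤ 2 ^ (w * (8 * u)) * ∏ i, (A i).card := by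
    intro p hp
    rw [Finset.mem_product, hX, Finset.mem_product, Fintype.mem_piFinset, Finset.mem_filter] at hp
    obtain ⟨⟨hx, -, hJ⟩, -⟩ := hp
    have hx' : ∀ i, p.1.1 i ≤ 2 ^ r := fun i => Nat.lt_succ_iff.1 (Finset.mem_range.1 (hx i))
    have hs := sum_le hx' (V := fun _ => 2 ^ b) (b := b) fun _ => le_rfl
    by_cases h0 : ∀ i ∈ p.1.2, p.1.1 i ≠ 0
    · refine le_trans (Nat.mul_le_mul_right _ (Finset.card_le_card ?_))
        (nprob (V := fun _ => 2 ^ b) (x := p.1.1) hJ huw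
        (fun i hi => Nat.pos_of_ne_zero (h0 i hi)) hA hW p.2 (b := n + r + b + 1) ?_)
      · intro a ha
        rw [hbad, Finset.mem_filter] at ha
        rw [Finset.mem_filter]
        exact ⟨ha.1, ha.2.2⟩
      · rw [← Finset.mul_sum, pow_succ]
        linarith
    · have h1 : bad p = ∅ := by
        rw [hbad]
        refine Finset.filter_eq_empty_iff.2 ?_
        intro a _ h
        exact h0 h.1
      rw [h1, Finset.card_empty, Nat.zero_mul]
      exact Nat.zero_le _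
  have hX1 : X.card ≤ 2 ^ (n + n * (r + 1)) := by
    rw [hX, Finset.card_product, pow_add, mul_comm (2 ^ n)]
    apply Nat.mul_le_mul
    · rw [Fintype.card_piFinset]
      simp only [Finset.card_range, Finset.prod_const, Finset.card_univ, Fintype.card_fin]
      rw [mul_comm n, pow_mul]
      apply Nat.pow_le_pow_left
      rw [pow_succ]
      have : 0 < 2 ^ r := by positivity
      omega
    · refine (Finset.card_filter_le _ _).trans (le_of_eq ?_)
      rw [Finset.card_univ, Fintype.card_finset, Fintype.card_fin]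
  calc B.card * 2 ^ (w * (16 * u))
      ≤ (∑ p ∈ X ×ˢ Finset.range (2 ^ (n + r + b)), (bad p).card) * 2 ^ (w * (16 * u)) :=
        Nat.mul_le_mul_right _ ((Finset.card_le_card hsub).trans Finset.card_biUnion_le)
    _ = ∑ p ∈ X ×ˢ Finset.range (2 ^ (n + r + b)), (bad p).card * 2 ^ (w * (16 * u)) := by
        rw [Finset.sum_mul]
    _ ≤ ∑ _p ∈ X ×ˢ Finset.range (2 ^ (n + r + b)), 2 ^ (w * (8 * u)) * ∏ i, (A i).card :=
        Finset.sum_le_sum hone
    _ = (X.card * 2 ^ (n + r + b)) * (2 ^ (w * (8 * u)) * ∏ i, (A i).card) := by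
        rw [Finset.sum_const, Finset.card_product, Finset.card_range, smul_eq_mul]
    _ ≤ 2 ^ (n + n * (r + 1) + (n + r + b)) * (2 ^ (w * (8 * u)) * ∏ i, (A i).card) := by
        apply Nat.mul_le_mul_right
        rw [pow_add 2 (n + n * (r + 1)) (n + r + b)]
        exact Nat.mul_le_mul_right _ hX1

end Pool.Agent.H97.SN
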