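import Pool.Agent.H97.SN.Fib

/-!
# Arbitrary laws of the radicands

`ω i` is the law of the `i`-th radicand, `θ` bounds its atoms.
-/

set_option autoImplicit false

namespace Pool.Agent.H97.SN

open Pool.Agent.H92.SR

theorem prod_le_pw {ι : Type} (J : Finset ι) (a : ι → ℕ) (ω : ι → ℕ → ℝ) (θ : ℝ)
    (h : ∀ i ∈ J, 0 ≤ ω i (a i) ∧ ω i (a i) ≤ θ) : ∏ i ∈ J, ω i (a i) ≤ θ ^ J.card := by
  rw [← Finset.prod_const]
  exact Finset.prod_le_prod (fun i hi => (h i hi).1) fun i hi => (h i hi).2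

open Classical in
theorem wbox {n m : ℕ} {A : Fin n → Finset ℕ} {V x : Fin n → ℕ} {J : Finset (Fin n)}
    {ω : Fin n → ℕ → ℝ} {θ : ℝ} (hω : ∀ i, ∀ y ∈ A i, 0 ≤ ω i y ∧ ω i y ≤ θ)
    (hω1 : ∀ i, ∑ y ∈ A i, ω i y = 1)
    (hJ : J.card = m) (hx : ∀ i ∈ J, 1 ≤ x i) (hA : ∀ i, ∀ y ∈ A i, 1 ≤ y ∧ y ≤ V i) (k : ℕ)
    {b : ℕ} (hb : ∑ i, 2 * √((x i ^ 2 * V i : ℕ) : ℝ) ≤ 2 ^ b) :
    ∑ a ∈ (Fintype.piFinset A).filter fun a => Set.InjOn (fun i => sf (x i ^ 2 * a i)) J ∧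
      |EE (List.ofFn fun i => x i ^ 2 * a i) k| * 2 ^ (1 + b * 4 ^ m) < 1,
      ∏ i, ω i (a i) ≤ θ ^ m * (m : ℝ) ^ m := by
  obtain ⟨B, hB⟩ : ∃ B, B = (Fintype.piFinset A).filter fun a =>
      Set.InjOn (fun i => sf (x i ^ 2 * a i)) J ∧
      |EE (List.ofFn fun i => x i ^ 2 * a i) k| * 2 ^ (1 + b * 4 ^ m) < 1 := ⟨_, rfl⟩
  rw [← hB]
  obtain ⟨T, hT⟩ : ∃ T : Finset ({i // i ∈ Jᶜ} → ℕ), T =
      Fintype.piFinset fun i => A i.1 := ⟨_, rfl⟩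
  have hT1 : ∑ y ∈ T, ∏ i : {i // i ∈ Jᶜ}, ω i.1 (y i) = 1 := by
    rw [hT, ← Finset.prod_univ_sum]
    exact Finset.prod_eq_one fun i _ => hω1 i.1
  have hmaps : ∀ a ∈ B, (fun i : {i // i ∈ Jᶜ} => a i.1) ∈ T := by
    intro a ha
    rw [hB, Finset.mem_filter, Fintype.mem_piFinset] at ha
    rw [hT, Fintype.mem_piFinset]
    exact fun i => ha.1 i.1
  have hb' : ∑ j : {j // j ∈ J}, 2 * √((x j.1 ^ 2 * V j.1 : ℕ) : ℝ) ≤ 2 ^ b := by
    rw [Finset.sum_coe_sort J (fun i => 2 * √((x i ^ 2 * V i : ℕ) : ℝ))]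
    refine le_trans ?_ hb
    exact Finset.sum_le_sum_of_subset_of_nonneg (Finset.subset_univ J)
      fun i _ _ => by positivity
  have hfib : ∀ y ∈ T, (B.filter fun a => (fun i : {i // i ∈ Jᶜ} => a i.1) = y).card ≤
      m ^ m := by
    intro y _
    have h1 := nfib (J := {j // j ∈ J}) (m := m) (by rw [Fintype.card_coe, hJ])
      (x := fun j => x j.1) (fun j => hx j.1 j.2) (A := fun j => A j.1)
      (fun j y hy => (hA j.1 y hy).1)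
      (∑ i : {i // i ∈ Jᶜ}, √((x i.1 ^ 2 * y i : ℕ) : ℝ) - k) (V := fun j => V j.1)
      (fun j y hy => (hA j.1 y hy).2) hb'
    refine le_trans ?_ h1
    refine Finset.card_le_card_of_injOn (fun a => fun j : {j // j ∈ J} => a j.1) ?_ ?_
    · intro a ha
      rw [Finset.mem_coe, Finset.mem_filter, hB, Finset.mem_filter] at ha
      obtain ⟨⟨ha1, hinj, ha2⟩, ha3⟩ := ha
      rw [Fintype.mem_piFinset] at ha1
      rw [Finset.mem_coe]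
      simp only [Finset.mem_filter, Fintype.mem_piFinset]
      refine ⟨fun j => ha1 j.1, ?_, ?_⟩
      · intro j j' hjj
        exact Subtype.ext (hinj j.2 j'.2 hjj)
      · have h2 : ∑ j : {j // j ∈ J}, √((x j.1 ^ 2 * a j.1 : ℕ) : ℝ) +
            (∑ i : {i // i ∈ Jᶜ}, √((x i.1 ^ 2 * y i : ℕ) : ℝ) - k) =
            EE (List.ofFn fun i => x i ^ 2 * a i) k := by
          rw [ee_of, ← ha3, Finset.sum_coe_sort J (fun i => √((x i ^ 2 * a i : ℕ) : ℝ)),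
            Finset.sum_coe_sort Jᶜ (fun i => √((x i ^ 2 * a i : ℕ) : ℝ)),
            ← Finset.sum_add_sum_compl J (fun i => √((x i ^ 2 * a i : ℕ) : ℝ))]
          ring
        rw [h2]
        exact ha2
    · intro a ha a' ha' h
      rw [Finset.mem_coe, Finset.mem_filter] at ha ha'
      funext i
      by_cases hi : i ∈ J
      · exact congrFun h ⟨i, hi⟩
      · have h2 := congrFun (ha.2.trans ha'.2.symm) ⟨i, Finset.mem_compl.2 hi⟩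
        exact h2
  have hθ : ∀ i : Fin n, 0 ≤ θ := by
    intro i
    have h1 : (A i).Nonempty := by
      rw [Finset.nonempty_iff_ne_empty]
      intro h2
      have h3 := hω1 i
      rw [h2, Finset.sum_empty] at h3
      exact zero_ne_one h3
    obtain ⟨y, hy⟩ := h1
    exact (hω i y hy).1.trans (hω i y hy).2
  have hm0 : 0 ≤ θ ^ m := by
    rcases Nat.eq_zero_or_pos m with h | h
    · rw [h, pow_zero]
      exact zero_le_one
    · have h1 : J.Nonempty := by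
        rw [← Finset.card_pos, hJ]
        exact h
      obtain ⟨i, _⟩ := h1
      exact pow_nonneg (hθ i) m
  have hle : ∀ a ∈ B, ∏ i, ω i (a i) ≤ θ ^ m * ∏ i ∈ Jᶜ, ω i (a i) := by
    intro a ha
    rw [hB, Finset.mem_filter, Fintype.mem_piFinset] at ha
    rw [← Finset.prod_mul_prod_compl J]
    refine mul_le_mul_of_nonneg_right ?_ (Finset.prod_nonneg fun i _ => (hω i _ (ha.1 i)).1)
    rw [← hJ]
    exact prod_le_pw J a ω θ (fun i _ => hω i _ (ha.1 i))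
  calc ∑ a ∈ B, ∏ i, ω i (a i) ≤ ∑ a ∈ B, θ ^ m * ∏ i ∈ Jᶜ, ω i (a i) := Finset.sum_le_sum hle
    _ = θ ^ m * ∑ a ∈ B, ∏ i ∈ Jᶜ, ω i (a i) := by rw [Finset.mul_sum]
    _ = θ ^ m * ∑ y ∈ T, ∑ a ∈ B.filter fun a => (fun i : {i // i ∈ Jᶜ} => a i.1) = y,
        ∏ i ∈ Jᶜ, ω i (a i) := by
        rw [Finset.sum_fiberwise_of_maps_to hmaps]
    _ = θ ^ m * ∑ y ∈ T, ((B.filter fun a => (fun i : {i // i ∈ Jᶜ} => a i.1) = y).card : ℝ) *
        ∏ i : {i // i ∈ Jᶜ}, ω i.1 (y i) := by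
        congr 1
        refine Finset.sum_congr rfl fun y _ => ?_
        rw [← nsmul_eq_mul, ← Finset.sum_const]
        refine Finset.sum_congr rfl fun a ha => ?_
        rw [Finset.mem_filter] at ha
        rw [← ha.2]
        exact (Finset.prod_coe_sort Jᶜ (fun i => ω i (a i))).symm
    _ ≤ θ ^ m * ∑ y ∈ T, (m : ℝ) ^ m * ∏ i : {i // i ∈ Jᶜ}, ω i.1 (y i) := by
        refine mul_le_mul_of_nonneg_left (Finset.sum_le_sum fun y hy => ?_) hm0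
        refine mul_le_mul_of_nonneg_right ?_ (Finset.prod_nonneg fun i _ => ?_)
        · exact_mod_cast hfib y hy
        · rw [hT, Fintype.mem_piFinset] at hy
          exact (hω i.1 _ (hy i)).1
    _ = θ ^ m * (m : ℝ) ^ m := by rw [← Finset.mul_sum, hT1, mul_one]

open Classical in
/-- `16 u` coordinates with atoms at most `2 ^ (-w)` -/
theorem wprob {n u w : ℕ} {A : Fin n → Finset ℕ} {V x : Fin n → ℕ} {J : Finset (Fin n)}
    {ω : Fin n → ℕ → ℝ} (hω : ∀ i, ∀ y ∈ A i, 0 ≤ ω i y ∧ ω i y * 2 ^ w ≤ 1)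
    (hω1 : ∀ i, ∑ y ∈ A i, ω i y = 1)
    (hJ : J.card = 16 * u) (huw : (16 * u) ^ 2 ≤ 2 ^ w) (hx : ∀ i ∈ J, 1 ≤ x i)
    (hA : ∀ i, ∀ y ∈ A i, 1 ≤ y ∧ y ≤ V i)
    (k : ℕ) {b : ℕ} (hb : ∑ i, 2 * √((x i ^ 2 * V i : ℕ) : ℝ) ≤ 2 ^ b) :
    (∑ a ∈ (Fintype.piFinset A).filter fun a => Set.InjOn (fun i => sf (x i ^ 2 * a i)) J ∧
      |EE (List.ofFn fun i => x i ^ 2 * a i) k| * 2 ^ (1 + b * 4 ^ (16 * u)) < 1,
      ∏ i, ω i (a i)) * 2 ^ (w * (8 * u)) ≤ 1 := by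
  have h0 : (0 : ℝ) < 2 ^ w := by positivity
  have h1 := wbox (θ := (2 ^ w)⁻¹) (fun i y hy => ⟨(hω i y hy).1, by
    rw [← one_div, le_div_iff₀ h0]
    exact (hω i y hy).2⟩) hω1 hJ hx hA k hb
  have h3 : (((16 * u : ℕ) : ℝ)) ^ (16 * u) ≤ (2 ^ w) ^ (8 * u) := by
    have e : 16 * u = 2 * (8 * u) := by ring
    have h4 : (((16 * u : ℕ) : ℝ)) ^ 2 ≤ 2 ^ w := by exact_mod_cast huw
    calc (((16 * u : ℕ) : ℝ)) ^ (16 * u) = ((((16 * u : ℕ) : ℝ)) ^ 2) ^ (8 * u) := by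
          rw [← pow_mul, ← e]
      _ ≤ (2 ^ w) ^ (8 * u) := pow_le_pow_left₀ (by positivity) h4 _
  have h5 : ((2 : ℝ) ^ w)⁻¹ ^ (16 * u) * ((2 ^ w) ^ (8 * u) * (2 ^ w) ^ (8 * u)) = 1 := by
    rw [← pow_add, show 8 * u + 8 * u = 16 * u by ring, ← mul_pow, inv_mul_cancel₀ h0.ne', one_pow]
  rw [pow_mul (2 : ℝ) w (8 * u)]
  calc _ ≤ (((2 : ℝ) ^ w)⁻¹ ^ (16 * u) * (((16 * u : ℕ) : ℝ)) ^ (16 * u)) * (2 ^ w) ^ (8 * u) :=
        mul_le_mul_of_nonneg_right h1 (by positivity)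
    _ ≤ (((2 : ℝ) ^ w)⁻¹ ^ (16 * u) * (2 ^ w) ^ (8 * u)) * (2 ^ w) ^ (8 * u) := by
        refine mul_le_mul_of_nonneg_right ?_ (by positivity)
        exact mul_le_mul_of_nonneg_left h3 (by positivity)
    _ = 1 := by rw [mul_assoc, h5]

end Pool.Agent.H97.SN
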