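import Pool.Agent.H97.SN.Wun
import Pool.Agent.H97.SN.Sem

/-!
# The square-root sum problem: independent radicands with arbitrary laws, worst case instances over them
-/

set_option autoImplicit false

namespace Pool.Agent.H97.SN

open Pool.Agent.H92.SR Pool.Agent.H92.SR.Tr Pool.Agent.H97.SM

open Classical in
theorem wsem : ∃ (c : Prog) (T : List ℕ → ℕ → ℕ) (q : Polynomial ℕ) (Λ : ℕ),
    (∀ (L : List ℕ) (k : ℕ),
      Eval c (encI L k) (bit (decide ((L.map fun a : ℕ => √(a : ℝ)).sum ≤ k))) (T L k)) ∧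
    ∀ (n r b w u : ℕ) (ω : Fin n → ℕ → ℝ), (16 * u) ^ 2 ≤ 2 ^ w → n * (r + 1) + b ≤ u * w →
      (∀ i, ∀ y ∈ Finset.Icc 1 (2 ^ b), 0 ≤ ω i y ∧ ω i y * 2 ^ w ≤ 1) →
      (∀ i, ∑ y ∈ Finset.Icc 1 (2 ^ b), ω i y = 1) →
      (∑ a ∈ (Fintype.piFinset fun _ : Fin n => Finset.Icc 1 (2 ^ b)).filter
        (fun a => ∃ (p : List (Fin n × ℕ)) (k : ℕ), (∀ i, tm p i ≤ 2 ^ r) ∧
          q.eval (p.length + n + b + r + Nat.size k) * Λ ^ u <
            T (p.map fun z => z.2 ^ 2 * a z.1) k), ∏ i, ω i (a i)) * 2 ^ (5 * u * w) ≤ 1 := by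
  obtain ⟨c0, T0, q0, hE0, hT0, hT0'⟩ := tim0
  have hev : ∀ s : ℕ, (q0.comp (4 * Polynomial.X ^ 2 + 4 * Polynomial.X + 2)).eval s =
      q0.eval (4 * s ^ 2 + 4 * s + 2) := by
    intro s
    simp [Polynomial.eval_comp]
  have hmain : ∀ (n r b u : ℕ) (a : Fin n → ℕ), (∀ i, 1 ≤ a i ∧ a i ≤ 2 ^ b) →
      ∀ p : List (Fin n × ℕ), (∀ i, tm p i ≤ 2 ^ r) → ∀ k : ℕ,
      (∀ J : Finset (Fin n), J.card = 16 * u → (∀ i ∈ J, tm p i ≠ 0) →
        Set.InjOn (fun i => sf (tm p i ^ 2 * a i)) J → k < 2 ^ (n + r + b) →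
        1 ≤ |EE (List.ofFn fun i => tm p i ^ 2 * a i) k| *
          2 ^ (1 + (n + r + b + 1) * 4 ^ (16 * u))) →
      T0 (p.map fun z => z.2 ^ 2 * a z.1) k ≤
        (q0.comp (4 * Polynomial.X ^ 2 + 4 * Polynomial.X + 2)).eval
          (p.length + n + b + r + Nat.size k) * (4 ^ (16 * q0.natDegree)) ^ u := by
    intro n r b u a haA p hp k hgood
    have h1 := ndet haA hp k hgood hT0 hT0'
    have h2 := nsize_le haA hp k
    rw [hev]
    obtain ⟨s, hs⟩ : ∃ s, s = p.length + n + b + r + Nat.size k := ⟨_, rfl⟩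
    rw [← hs] at h2 ⊢
    have h4 : 1 ≤ 4 ^ (16 * u) := Nat.one_le_pow _ _ (by norm_num)
    have h5 : bsz (p.map fun z => z.2 ^ 2 * a z.1) k +
        (1 + (n * (2 * r + b + 1) + n + r + b + Nat.size k + 1) * 4 ^ (16 * u)) ≤
        (4 * s ^ 2 + 4 * s + 2) * 4 ^ (16 * u) := by
      have h3 : n * (2 * r + b + 1) ≤ s * (2 * s + 1) := Nat.mul_le_mul (by omega) (by omega)
      have h3' : s * (2 * s + 1) = 2 * s ^ 2 + s := by ring
      have h6 : (n * (2 * r + b + 1) + n + r + b + Nat.size k + 1) * 4 ^ (16 * u) ≤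
          (2 * s ^ 2 + 2 * s + 1) * 4 ^ (16 * u) := Nat.mul_le_mul_right _ (by omega)
      have h7 : (2 * s ^ 2 + 2 * s + 1) * 1 ≤ (2 * s ^ 2 + 2 * s + 1) * 4 ^ (16 * u) :=
        Nat.mul_le_mul_left _ h4
      have h8 : (4 * s ^ 2 + 4 * s + 2) * 4 ^ (16 * u) =
          (2 * s ^ 2 + 2 * s + 1) * 4 ^ (16 * u) + (2 * s ^ 2 + 2 * s + 1) * 4 ^ (16 * u) := by ring
      omega
    have h6 := h1.trans ((poly_mono q0 h5).trans (poly_scale q0 _ h4))
    have h7 : (4 ^ (16 * u)) ^ q0.natDegree = (4 ^ (16 * q0.natDegree)) ^ u := by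
      rw [← pow_mul, ← pow_mul]
      congr 1
      ring
    rw [h7] at h6
    exact h6
  refine ⟨c0, T0, q0.comp (4 * Polynomial.X ^ 2 + 4 * Polynomial.X + 2),
    4 ^ (16 * q0.natDegree), fun L k => ?_, ?_⟩
  · have e : decide ((L.map fun a : ℕ => √(a : ℝ)).sum ≤ k) = decide (EE L k ≤ 0) := by
      apply decide_eq_decide.2
      unfold EE
      rw [sub_nonpos]
    rw [e]
    exact hE0 L k
  intro n r b w u ω huw hn hω hω1
  have hA : ∀ i : Fin n, ∀ y ∈ (fun _ : Fin n => Finset.Icc 1 (2 ^ b)) i, 1 ≤ y ∧ y ≤ 2 ^ b :=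
    fun i y hy => Finset.mem_Icc.1 hy
  have hW0 : ∀ a ∈ Fintype.piFinset (fun _ : Fin n => Finset.Icc 1 (2 ^ b)),
      0 ≤ ∏ i, ω i (a i) := fun a ha =>
    Finset.prod_nonneg fun i _ => (hω i _ (Fintype.mem_piFinset.1 ha i)).1
  have hsub : ((Fintype.piFinset fun _ : Fin n => Finset.Icc 1 (2 ^ b)).filter
        fun a => ∃ (p : List (Fin n × ℕ)) (k : ℕ), (∀ i, tm p i ≤ 2 ^ r) ∧
        (q0.comp (4 * Polynomial.X ^ 2 + 4 * Polynomial.X + 2)).eval
          (p.length + n + b + r + Nat.size k) * (4 ^ (16 * q0.natDegree)) ^ u <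
          T0 (p.map fun z => z.2 ^ 2 * a z.1) k) ⊆
      ((Fintype.piFinset fun _ : Fin n => Finset.Icc 1 (2 ^ b)).filter
        fun a => ∃ x : Fin n → ℕ, (∀ i, x i ≤ 2 ^ r) ∧
        ∃ J : Finset (Fin n), J.card = 16 * u ∧ (∀ i ∈ J, x i ≠ 0) ∧
        Set.InjOn (fun i => sf (x i ^ 2 * a i)) J ∧ ∃ k < 2 ^ (n + r + b),
        |EE (List.ofFn fun i => x i ^ 2 * a i) k| *
          2 ^ (1 + (n + r + b + 1) * 4 ^ (16 * u)) < 1) := by
    intro a ha
    rw [Finset.mem_filter] at ha ⊢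
    obtain ⟨ha, p, k, hp, hlt⟩ := ha
    refine ⟨ha, ?_⟩
    by_contra hno
    refine absurd (hmain n r b u a (fun i => hA i _ (Fintype.mem_piFinset.1 ha i)) p hp k
      fun J hJ hJ0 hinj hk => ?_) (not_le.2 hlt)
    by_contra h3
    exact hno ⟨tm p, hp, J, hJ, hJ0, hinj, k, hk, not_le.1 h3⟩
  have hle := Finset.sum_le_sum_of_subset_of_nonneg hsub
    (f := fun a => ∏ i, ω i (a i)) fun a ha _ => hW0 a (Finset.mem_filter.1 ha).1
  rcases Nat.eq_zero_or_pos u with h0 | hu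
  · have h2 : (2 : ℝ) ^ (5 * u * w) = 1 := by rw [h0]; simp
    rw [h2, mul_one]
    refine (Finset.sum_le_sum_of_subset_of_nonneg (Finset.filter_subset _ _)
      fun a ha _ => hW0 a ha).trans (le_of_eq ?_)
    rw [← Finset.prod_univ_sum]
    exact Finset.prod_eq_one fun i _ => hω1 i
  by_cases hn1 : 1 ≤ n
  · have h1 := (mul_le_mul_of_nonneg_right hle (by positivity)).trans
      (wuni (r := r) (b := b) hω hω1 huw hA)
    have h2 : n + n * (r + 1) + (n + r + b) ≤ 3 * (u * w) := by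
      have h3 : 1 * r ≤ n * r := Nat.mul_le_mul_right r hn1
      have h4 : n * (r + 1) = n * r + n := by ring
      omega
    have h3 : (2 : ℝ) ^ (n + n * (r + 1) + (n + r + b)) ≤ 2 ^ (3 * (u * w)) :=
      pow_le_pow_right₀ (by norm_num) h2
    have h5 : (2 : ℝ) ^ (w * (8 * u)) = 2 ^ (5 * u * w) * 2 ^ (3 * (u * w)) := by
      rw [← pow_add]
      congr 1
      ring
    rw [h5, ← mul_assoc] at h1
    have h6 : (0 : ℝ) < 2 ^ (3 * (u * w)) := by positivity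
    have h7 := h1.trans h3
    exact (mul_le_iff_le_one_left h6).1 h7
  · have hn0 : n = 0 := by omega
    have h2 : ((Fintype.piFinset fun _ : Fin n => Finset.Icc 1 (2 ^ b)).filter
        fun a => ∃ x : Fin n → ℕ, (∀ i, x i ≤ 2 ^ r) ∧
        ∃ J : Finset (Fin n), J.card = 16 * u ∧ (∀ i ∈ J, x i ≠ 0) ∧
        Set.InjOn (fun i => sf (x i ^ 2 * a i)) J ∧ ∃ k < 2 ^ (n + r + b),
        |EE (List.ofFn fun i => x i ^ 2 * a i) k| *
          2 ^ (1 + (n + r + b + 1) * 4 ^ (16 * u)) < 1) = ∅ := by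
      rw [Finset.filter_eq_empty_iff]
      rintro a - ⟨x, -, J, hJ, -⟩
      have h2 := Finset.card_le_univ J
      rw [Fintype.card_fin] at h2
      omega
    rw [h2, Finset.subset_empty] at hsub
    rw [hsub, Finset.sum_empty, zero_mul]
    exact zero_le_one

end Pool.Agent.H97.SN
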