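import Pool.Agent.H97.SN.Wbx
import Pool.Agent.H97.SN.Det

/-!
# All sets of coordinates, multipliers and comparison numbers at once, arbitrary laws
-/

set_option autoImplicit false

namespace Pool.Agent.H97.SN

open Pool.Agent.H92.SR Pool.Agent.H97.SM

open Classical in
theorem ubd {α β : Type} (s : Finset α) (I : Finset β) (P : α → Prop)
    (Q : β → α → Prop) (W : α → ℝ) (hW : ∀ x ∈ s, 0 ≤ W x)
    (h : ∀ x ∈ s, P x → ∃ b ∈ I, Q b x) :
    ∑ x ∈ s.filter P, W x ≤ ∑ b ∈ I, ∑ x ∈ s.filter (Q b), W x := by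
  simp only [Finset.sum_filter]
  rw [Finset.sum_comm]
  refine Finset.sum_le_sum fun x hx => ?_
  have hnn : ∀ b ∈ I, 0 ≤ if Q b x then W x else 0 := by
    intro b _
    split_ifs
    · exact hW x hx
    · exact le_rfl
  by_cases hP : P x
  · rw [if_pos hP]
    obtain ⟨b, hb, hQ⟩ := h x hx hP
    have h2 := Finset.single_le_sum hnn hb
    rwa [if_pos hQ] at h2
  · rw [if_neg hP]
    exact Finset.sum_nonneg hnn

open Classical in
theorem wuni {n r b w u : ℕ} {A : Fin n → Finset ℕ} {ω : Fin n → ℕ → ℝ}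
    (hω : ∀ i, ∀ y ∈ A i, 0 ≤ ω i y ∧ ω i y * 2 ^ w ≤ 1)
    (hω1 : ∀ i, ∑ y ∈ A i, ω i y = 1) (huw : (16 * u) ^ 2 ≤ 2 ^ w)
    (hA : ∀ i, ∀ y ∈ A i, 1 ≤ y ∧ y ≤ 2 ^ b) :
    (∑ a ∈ (Fintype.piFinset A).filter fun a => ∃ x : Fin n → ℕ, (∀ i, x i ≤ 2 ^ r) ∧
      ∃ J : Finset (Fin n), J.card = 16 * u ∧ (∀ i ∈ J, x i ≠ 0) ∧
      Set.InjOn (fun i => sf (x i ^ 2 * a i)) J ∧ ∃ k < 2 ^ (n + r + b),
      |EE (List.ofFn fun i => x i ^ 2 * a i) k| *
        2 ^ (1 + (n + r + b + 1) * 4 ^ (16 * u)) < 1, ∏ i, ω i (a i)) *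
      2 ^ (w * (8 * u)) ≤
      2 ^ (n + n * (r + 1) + (n + r + b)) := by
  obtain ⟨X, hX⟩ : ∃ X, X = (Fintype.piFinset fun _ : Fin n => Finset.range (2 ^ r + 1)) ×ˢ
      ((Finset.univ : Finset (Finset (Fin n))).filter fun J => J.card = 16 * u) := ⟨_, rfl⟩
  obtain ⟨Q, hQ⟩ : ∃ Q : ((Fin n → ℕ) × Finset (Fin n)) × ℕ → (Fin n → ℕ) → Prop,
      Q = fun p a => (∀ i ∈ p.1.2, p.1.1 i ≠ 0) ∧
        Set.InjOn (fun i => sf (p.1.1 i ^ 2 * a i)) p.1.2 ∧
        |EE (List.ofFn fun i => p.1.1 i ^ 2 * a i) p.2| *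
        2 ^ (1 + (n + r + b + 1) * 4 ^ (16 * u)) < 1 := ⟨_, rfl⟩
  have hW0 : ∀ a ∈ Fintype.piFinset A, 0 ≤ ∏ i, ω i (a i) := fun a ha =>
    Finset.prod_nonneg fun i _ => (hω i _ (Fintype.mem_piFinset.1 ha i)).1
  have hub := ubd (Fintype.piFinset A) (X ×ˢ Finset.range (2 ^ (n + r + b)))
    (fun a => ∃ x : Fin n → ℕ, (∀ i, x i ≤ 2 ^ r) ∧
      ∃ J : Finset (Fin n), J.card = 16 * u ∧ (∀ i ∈ J, x i ≠ 0) ∧
      Set.InjOn (fun i => sf (x i ^ 2 * a i)) J ∧ ∃ k < 2 ^ (n + r + b),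
      |EE (List.ofFn fun i => x i ^ 2 * a i) k| *
        2 ^ (1 + (n + r + b + 1) * 4 ^ (16 * u)) < 1) Q (fun a => ∏ i, ω i (a i)) hW0 (by
    rintro a - ⟨x, hx, J, hJ, hJx, hinj, k, hk, h2⟩
    rw [hQ]
    refine ⟨((x, J), k), ?_, hJx, hinj, h2⟩
    rw [Finset.mem_product, hX, Finset.mem_product, Fintype.mem_piFinset, Finset.mem_filter]
    refine ⟨⟨fun i => ?_, Finset.mem_univ _, hJ⟩, Finset.mem_range.2 hk⟩
    rw [Finset.mem_range]
    exact Nat.lt_succ_of_le (hx i))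
  have hone : ∀ p ∈ X ×ˢ Finset.range (2 ^ (n + r + b)),
      (∑ a ∈ (Fintype.piFinset A).filter (Q p), ∏ i, ω i (a i)) *
        2 ^ (w * (8 * u)) ≤ 1 := by
    intro p hp
    rw [Finset.mem_product, hX, Finset.mem_product, Fintype.mem_piFinset, Finset.mem_filter] at hp
    obtain ⟨⟨hx, -, hJ⟩, -⟩ := hp
    have hx' : ∀ i, p.1.1 i ≤ 2 ^ r := fun i => Nat.lt_succ_iff.1 (Finset.mem_range.1 (hx i))
    have hs := sum_le hx' (V := fun _ => 2 ^ b) (b := b) fun _ => le_rfl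
    by_cases h0 : ∀ i ∈ p.1.2, p.1.1 i ≠ 0
    · refine le_trans (mul_le_mul_of_nonneg_right ?_ (by positivity))
        (wprob (V := fun _ => 2 ^ b) (x := p.1.1) hω hω1 hJ huw
        (fun i hi => Nat.pos_of_ne_zero (h0 i hi)) hA p.2 (b := n + r + b + 1) ?_)
      · refine Finset.sum_le_sum_of_subset_of_nonneg ?_ fun a ha _ =>
          hW0 a (Finset.mem_filter.1 ha).1
        intro a ha
        rw [Finset.mem_filter, hQ] at ha
        rw [Finset.mem_filter]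
        exact ⟨ha.1, ha.2.2⟩
      · rw [← Finset.mul_sum, pow_succ]
        linarith
    · have he : (Fintype.piFinset A).filter (Q p) = ∅ := by
        rw [Finset.filter_eq_empty_iff, hQ]
        intro a _ h
        exact h0 h.1
      rw [he, Finset.sum_empty, zero_mul]
      exact zero_le_one
  have hX1 : X.card ≤ 2 ^ (n + n * (r + 1)) := by
    rw [hX, Finset.card_product, pow_add, mul_comm (2 ^ n)]
    apply Nat.mul_le_mul
    · rw [Fintype.card_piFinset]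
      simp only [Finset.card_range, Finset.prod_const, Finset.card_univ, Fintype.card_fin]
      rw [mul_comm n, pow_mul]
      apply Nat.pow_le_pow_left
      rw [pow_succ]
      have : 0 < 2 ^ r := by positivity
      omega
    · refine (Finset.card_filter_le _ _).trans (le_of_eq ?_)
      rw [Finset.card_univ, Fintype.card_finset, Fintype.card_fin]
  have hX2 : ((X ×ˢ Finset.range (2 ^ (n + r + b))).card : ℝ) ≤
      2 ^ (n + n * (r + 1) + (n + r + b)) := by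
    rw [Finset.card_product, Finset.card_range, pow_add (2 : ℝ) (n + n * (r + 1)) (n + r + b)]
    exact_mod_cast Nat.mul_le_mul_right _ hX1
  refine (mul_le_mul_of_nonneg_right hub (by positivity)).trans ?_
  rw [Finset.sum_mul]
  refine (Finset.sum_le_sum hone).trans ?_
  rw [Finset.sum_const, nsmul_eq_mul, mul_one]
  exact hX2

end Pool.Agent.H97.SN
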