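import Pool.Agent.H97.SN.Xun

/-!
# The running time outside the bad set, few radicands
-/

set_option autoImplicit false

namespace Pool.Agent.H97.SN

open Pool.Agent.H92.SR Pool.Agent.H97.SM

theorem xdet {n s r b u : ℕ} {a : Fin n → ℕ} (haA : ∀ i, 1 ≤ a i ∧ a i ≤ 2 ^ b)
    {p : List (Fin n × ℕ)} (hp : ∀ i, tm p i ≤ 2 ^ r)
    (hs : (Finset.univ.filter fun i => tm p i ≠ 0).card ≤ s) (k : ℕ)
    (hgood : ∀ J : Finset (Fin n), J.card = 16 * u → (∀ i ∈ J, tm p i ≠ 0) →
      Set.InjOn (fun i => sf (tm p i ^ 2 * a i)) J → k < 2 ^ (s + r + b) →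
      1 ≤ |EE (List.ofFn fun i => tm p i ^ 2 * a i) k| *
        2 ^ (1 + (s + r + b + 1) * 4 ^ (16 * u)))
    {T : List ℕ → ℕ → ℕ} {q : Polynomial ℕ}
    (hT : ∀ L k x, 1 ≤ |EE L k| * 2 ^ x → T L k ≤ q.eval (bsz L k + x))
    (hT' : ∀ L k, (∀ a ∈ L, IsSquare a) → T L k ≤ q.eval (bsz L k)) :
    T (p.map fun z => z.2 ^ 2 * a z.1) k ≤
      q.eval (bsz (p.map fun z => z.2 ^ 2 * a z.1) k +
        (1 + (s * (2 * r + b + 1) + s + r + b + Nat.size k + 1) * 4 ^ (16 * u))) := by
  have hmono : ∀ y ≤ 1 + (s * (2 * r + b + 1) + s + r + b + Nat.size k + 1) * 4 ^ (16 * u),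
      q.eval (bsz (p.map fun z => z.2 ^ 2 * a z.1) k + y) ≤
      q.eval (bsz (p.map fun z => z.2 ^ 2 * a z.1) k +
        (1 + (s * (2 * r + b + 1) + s + r + b + Nat.size k + 1) * 4 ^ (16 * u))) :=
    fun y hy => poly_mono q (by omega)
  have hs1 := xsum_le (n := n) hp hs fun i => (haA i).2
  have hsum : ((p.map fun z => z.2 ^ 2 * a z.1).map fun a : ℕ => √(a : ℝ)).sum + 1 ≤
      2 ^ (s + r + b) := by
    have e := EE_map p a 0
    rw [ee_of] at e
    unfold EE at e
    linarith
  by_cases hk : k < 2 ^ (s + r + b)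
  · by_cases hc : 16 * u ≤ ((Finset.univ.filter fun i => tm p i ≠ 0).image
        fun i => sf (tm p i ^ 2 * a i)).card
    · obtain ⟨J, hJs, hJ, hinj⟩ := reps hc
      have h1 := hgood J hJ (fun i hi => (Finset.mem_filter.1 (hJs hi)).2) hinj hk
      rw [← EE_map] at h1
      refine (hT _ _ _ h1).trans (hmono _ ?_)
      have : (s + r + b + 1) * 4 ^ (16 * u) ≤
          (s * (2 * r + b + 1) + s + r + b + Nat.size k + 1) * 4 ^ (16 * u) :=
        Nat.mul_le_mul_right _ (by omega)
      omega
    · by_cases hsq : ∀ y ∈ p.map fun z => z.2 ^ 2 * a z.1, IsSquare y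
      · exact (hT' _ _ hsq).trans (hmono 0 (Nat.zero_le _))
      · have hsq' : ¬ ∀ y ∈ List.ofFn fun i => tm p i ^ 2 * a i, IsSquare y := by
          intro h
          apply hsq
          intro y hy
          rw [List.mem_map] at hy
          obtain ⟨z, hz, rfl⟩ := hy
          rcases Nat.eq_zero_or_pos z.2 with h0 | h0
          · exact ⟨0, by rw [h0]; ring⟩
          · obtain ⟨v, hv⟩ := h (tm p z.1 ^ 2 * a z.1) (List.mem_ofFn.2 ⟨z.1, rfl⟩)
            obtain ⟨c, hc⟩ := sq_cls (h0.trans_le (le_tm hz)) squarefree_one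
              (show tm p z.1 ^ 2 * a z.1 = v ^ 2 * 1 by rw [hv]; ring)
            exact ⟨z.2 * c, by rw [hc]; ring⟩
        have h2 := Pool.Agent.H41.RC.few_sep (n := n)
          (N := fun i => if tm p i ≠ 0 then 2 ^ (2 * r + b) else 0)
          (x := fun i => tm p i ^ 2 * a i) (fun i => by
            by_cases h0 : tm p i = 0
            · rw [if_neg (not_not.2 h0), h0]
              simp
            · rw [if_pos h0]
              calc tm p i ^ 2 * a i ≤ (2 ^ r) ^ 2 * 2 ^ b :=
                    Nat.mul_le_mul (Nat.pow_le_pow_left (hp i) 2) (haA i).2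
                _ = 2 ^ (2 * r + b) := by rw [← pow_mul, ← pow_add]; congr 1; ring)
          (D := insert 1 ((Finset.univ.filter fun i => tm p i ≠ 0).image
            fun i => sf (tm p i ^ 2 * a i)))
          (Finset.mem_insert_self _ _) (by
            intro c hc
            rcases Finset.mem_insert.1 hc with rfl | hc
            · exact squarefree_one
            · obtain ⟨i, -, rfl⟩ := Finset.mem_image.1 hc
              exact (sf_spec _).2) (by
            intro i hi
            refine Finset.mem_insert_of_mem (Finset.mem_image.2 ⟨i, ?_, rfl⟩)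
            rw [Finset.mem_filter]
            refine ⟨Finset.mem_univ i, fun h0 => hi ?_⟩
            rw [h0]
            ring) (m := 8 * u) (by
            refine (Finset.card_insert_le _ _).trans ?_
            omega) k hsq'
        rw [← EE_map] at h2
        refine (hT _ _ _ h2).trans (hmono _ ?_)
        have h3 : ∑ i : Fin n, Nat.size (if tm p i ≠ 0 then 2 ^ (2 * r + b) else 0) ≤
            s * (2 * r + b + 1) := by
          have h4 : ∀ i : Fin n, Nat.size (if tm p i ≠ 0 then 2 ^ (2 * r + b) else 0) =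
              if tm p i ≠ 0 then (2 * r + b + 1) else 0 := by
            intro i
            by_cases h0 : tm p i = 0
            · rw [if_neg (not_not.2 h0), if_neg (not_not.2 h0), Nat.size_zero]
            · rw [if_pos h0, if_pos h0, Nat.size_pow]
          rw [Finset.sum_congr rfl fun i _ => h4 i, ← Finset.sum_filter, Finset.sum_const,
            smul_eq_mul]
          exact Nat.mul_le_mul_right _ hs
        have h4 : (∑ i : Fin n, Nat.size (if tm p i ≠ 0 then 2 ^ (2 * r + b) else 0) +
            Nat.size k + 1) * 4 ^ (8 * u) ≤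
            (s * (2 * r + b + 1) + s + r + b + Nat.size k + 1) * 4 ^ (16 * u) :=
          Nat.mul_le_mul (by omega) (Nat.pow_le_pow_right (by norm_num) (by omega))
        omega
  · have h1 : 1 ≤ |EE (p.map fun z => z.2 ^ 2 * a z.1) k| * 2 ^ 0 := by
      have h2 : (2 : ℝ) ^ (s + r + b) ≤ k := by exact_mod_cast not_lt.1 hk
      rw [pow_zero, mul_one]
      refine le_trans ?_ (neg_le_abs _)
      unfold EE
      linarith
    exact (hT _ _ _ h1).trans (hmono 0 (Nat.zero_le _))

end Pool.Agent.H97.SN
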