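import Pool.Agent.H97.SN.Xdt

/-!
# The square-root sum problem: independent radicands with arbitrary laws, families of instances over them
-/

set_option autoImplicit false

namespace Pool.Agent.H97.SN

open Pool.Agent.H92.SR Pool.Agent.H92.SR.Tr Pool.Agent.H97.SM

theorem xsize_le {n r b : ℕ} {a : Fin n → ℕ} (haA : ∀ i, 1 ≤ a i ∧ a i ≤ 2 ^ b)
    {p : List (Fin n × ℕ)} (hp : ∀ i, tm p i ≤ 2 ^ r) (s k : ℕ) :
    bsz (p.map fun z => z.2 ^ 2 * a z.1) k ≤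
      2 * (p.length + s + b + r + Nat.size k) ^ 2 + 2 * (p.length + s + b + r + Nat.size k) := by
  have h1 : ((p.map fun z => z.2 ^ 2 * a z.1).map Nat.size).sum ≤ p.length * (2 * r + b + 1) := by
    have h2 := List.sum_le_card_nsmul ((p.map fun z => z.2 ^ 2 * a z.1).map Nat.size)
      (2 * r + b + 1) (by
      intro y hy
      rw [List.mem_map] at hy
      obtain ⟨v, hv, rfl⟩ := hy
      rw [List.mem_map] at hv
      obtain ⟨z, hz, rfl⟩ := hv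
      apply Nat.size_le.2
      calc z.2 ^ 2 * a z.1 ≤ (2 ^ r) ^ 2 * 2 ^ b :=
            Nat.mul_le_mul (Nat.pow_le_pow_left ((le_tm hz).trans (hp z.1)) 2) (haA z.1).2
        _ = 2 ^ (2 * r + b) := by rw [← pow_mul, ← pow_add]; congr 1; ring
        _ < 2 ^ (2 * r + b + 1) := Nat.pow_lt_pow_right (by norm_num) (by omega))
    rw [List.length_map, List.length_map, smul_eq_mul] at h2
    exact h2
  unfold bsz
  rw [List.length_map]
  obtain ⟨S, hS⟩ : ∃ S, S = p.length + s + b + r + Nat.size k := ⟨_, rfl⟩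
  rw [← hS]
  have h3 : p.length * (2 * r + b + 1) ≤ S * (2 * S + 1) := Nat.mul_le_mul (by omega) (by omega)
  have h4 : S * (2 * S + 1) = 2 * S ^ 2 + S := by ring
  omega

open Classical in
theorem xsem : ∃ (c : Prog) (T : List ℕ → ℕ → ℕ) (q : Polynomial ℕ) (Λ : ℕ),
    (∀ (L : List ℕ) (k : ℕ),
      Eval c (encI L k) (bit (decide ((L.map fun a : ℕ => √(a : ℝ)).sum ≤ k))) (T L k)) ∧
    ∀ (n s r b w u : ℕ) (X : Finset (Fin n → ℕ)) (ω : Fin n → ℕ → ℝ), (16 * u) ^ 2 ≤ 2 ^ w →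
      X.card * 2 ^ (2 * s + r + b) ≤ 2 ^ (u * w) →
      (∀ x ∈ X, (∀ i, x i ≤ 2 ^ r) ∧ (Finset.univ.filter fun i => x i ≠ 0).card ≤ s) →
      (∀ i, ∀ y ∈ Finset.Icc 1 (2 ^ b), 0 ≤ ω i y ∧ ω i y * 2 ^ w ≤ 1) →
      (∀ i, ∑ y ∈ Finset.Icc 1 (2 ^ b), ω i y = 1) →
      (∑ a ∈ (Fintype.piFinset fun _ : Fin n => Finset.Icc 1 (2 ^ b)).filter
        (fun a => ∃ (p : List (Fin n × ℕ)) (k : ℕ), tm p ∈ X ∧
          q.eval (p.length + s + b + r + Nat.size k) * Λ ^ u <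
            T (p.map fun z => z.2 ^ 2 * a z.1) k), ∏ i, ω i (a i)) * 2 ^ (7 * u * w) ≤ 1 := by
  obtain ⟨c0, T0, q0, hE0, hT0, hT0'⟩ := tim0
  have hev : ∀ s : ℕ, (q0.comp (4 * Polynomial.X ^ 2 + 4 * Polynomial.X + 2)).eval s =
      q0.eval (4 * s ^ 2 + 4 * s + 2) := by
    intro s
    simp [Polynomial.eval_comp]
  have hmain : ∀ (n s r b u : ℕ) (a : Fin n → ℕ), (∀ i, 1 ≤ a i ∧ a i ≤ 2 ^ b) →
      ∀ p : List (Fin n × ℕ), (∀ i, tm p i ≤ 2 ^ r) →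
      (Finset.univ.filter fun i => tm p i ≠ 0).card ≤ s → ∀ k : ℕ,
      (∀ J : Finset (Fin n), J.card = 16 * u → (∀ i ∈ J, tm p i ≠ 0) →
        Set.InjOn (fun i => sf (tm p i ^ 2 * a i)) J → k < 2 ^ (s + r + b) →
        1 ≤ |EE (List.ofFn fun i => tm p i ^ 2 * a i) k| *
          2 ^ (1 + (s + r + b + 1) * 4 ^ (16 * u))) →
      T0 (p.map fun z => z.2 ^ 2 * a z.1) k ≤
        (q0.comp (4 * Polynomial.X ^ 2 + 4 * Polynomial.X + 2)).eval
          (p.length + s + b + r + Nat.size k) * (4 ^ (16 * q0.natDegree)) ^ u := by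
    intro n s r b u a haA p hp hs k hgood
    have h1 := xdet haA hp hs k hgood hT0 hT0'
    have h2 := xsize_le haA hp s k
    rw [hev]
    obtain ⟨S, hS⟩ : ∃ S, S = p.length + s + b + r + Nat.size k := ⟨_, rfl⟩
    rw [← hS] at h2 ⊢
    have h4 : 1 ≤ 4 ^ (16 * u) := Nat.one_le_pow _ _ (by norm_num)
    have h5 : bsz (p.map fun z => z.2 ^ 2 * a z.1) k +
        (1 + (s * (2 * r + b + 1) + s + r + b + Nat.size k + 1) * 4 ^ (16 * u)) ≤
        (4 * S ^ 2 + 4 * S + 2) * 4 ^ (16 * u) := by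
      have h3 : s * (2 * r + b + 1) ≤ S * (2 * S + 1) := Nat.mul_le_mul (by omega) (by omega)
      have h3' : S * (2 * S + 1) = 2 * S ^ 2 + S := by ring
      have h6 : (s * (2 * r + b + 1) + s + r + b + Nat.size k + 1) * 4 ^ (16 * u) ≤
          (2 * S ^ 2 + 2 * S + 1) * 4 ^ (16 * u) := Nat.mul_le_mul_right _ (by omega)
      have h7 : (2 * S ^ 2 + 2 * S + 1) * 1 ≤ (2 * S ^ 2 + 2 * S + 1) * 4 ^ (16 * u) :=
        Nat.mul_le_mul_left _ h4
      have h8 : (4 * S ^ 2 + 4 * S + 2) * 4 ^ (16 * u) =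
          (2 * S ^ 2 + 2 * S + 1) * 4 ^ (16 * u) + (2 * S ^ 2 + 2 * S + 1) * 4 ^ (16 * u) := by ring
      omega
    have h6 := h1.trans ((poly_mono q0 h5).trans (poly_scale q0 _ h4))
    have h7 : (4 ^ (16 * u)) ^ q0.natDegree = (4 ^ (16 * q0.natDegree)) ^ u := by
      rw [← pow_mul, ← pow_mul]
      congr 1
      ring
    rw [h7] at h6
    exact h6
  refine ⟨c0, T0, q0.comp (4 * Polynomial.X ^ 2 + 4 * Polynomial.X + 2),
    4 ^ (16 * q0.natDegree), fun L k => ?_, ?_⟩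
  · have e : decide ((L.map fun a : ℕ => √(a : ℝ)).sum ≤ k) = decide (EE L k ≤ 0) := by
      apply decide_eq_decide.2
      unfold EE
      rw [sub_nonpos]
    rw [e]
    exact hE0 L k
  intro n s r b w u X ω huw hXc hX hω hω1
  have hA : ∀ i : Fin n, ∀ y ∈ (fun _ : Fin n => Finset.Icc 1 (2 ^ b)) i, 1 ≤ y ∧ y ≤ 2 ^ b :=
    fun i y hy => Finset.mem_Icc.1 hy
  have hW0 : ∀ a ∈ Fintype.piFinset (fun _ : Fin n => Finset.Icc 1 (2 ^ b)),
      0 ≤ ∏ i, ω i (a i) := fun a ha =>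
    Finset.prod_nonneg fun i _ => (hω i _ (Fintype.mem_piFinset.1 ha i)).1
  have hsub : ((Fintype.piFinset fun _ : Fin n => Finset.Icc 1 (2 ^ b)).filter
        fun a => ∃ (p : List (Fin n × ℕ)) (k : ℕ), tm p ∈ X ∧
        (q0.comp (4 * Polynomial.X ^ 2 + 4 * Polynomial.X + 2)).eval
          (p.length + s + b + r + Nat.size k) * (4 ^ (16 * q0.natDegree)) ^ u <
          T0 (p.map fun z => z.2 ^ 2 * a z.1) k) ⊆
      ((Fintype.piFinset fun _ : Fin n => Finset.Icc 1 (2 ^ b)).filter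
        fun a => ∃ x : Fin n → ℕ, (∀ i, x i ≤ 2 ^ r) ∧ x ∈ X ∧
        ∃ J : Finset (Fin n), J.card = 16 * u ∧ (∀ i ∈ J, x i ≠ 0) ∧
        Set.InjOn (fun i => sf (x i ^ 2 * a i)) J ∧ ∃ k < 2 ^ (s + r + b),
        |EE (List.ofFn fun i => x i ^ 2 * a i) k| *
          2 ^ (1 + (s + r + b + 1) * 4 ^ (16 * u)) < 1) := by
    intro a ha
    rw [Finset.mem_filter] at ha ⊢
    obtain ⟨ha, p, k, hp, hlt⟩ := ha
    refine ⟨ha, ?_⟩
    by_contra hno
    refine absurd (hmain n s r b u a (fun i => hA i _ (Fintype.mem_piFinset.1 ha i)) p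
      (hX _ hp).1 (hX _ hp).2 k fun J hJ hJ0 hinj hk => ?_) (not_le.2 hlt)
    by_contra h3
    exact hno ⟨tm p, (hX _ hp).1, hp, J, hJ, hJ0, hinj, k, hk, not_le.1 h3⟩
  have hle := Finset.sum_le_sum_of_subset_of_nonneg hsub
    (f := fun a => ∏ i, ω i (a i)) fun a ha _ => hW0 a (Finset.mem_filter.1 ha).1
  have h8 : (0 : ℝ) ≤ 2 ^ (w * (8 * u)) := by positivity
  have h1 := (mul_le_mul_of_nonneg_right hle h8).trans (xuni hω hω1 huw hA X hX)
  have h3 : (X.card : ℝ) * 2 ^ (2 * s + r + b) ≤ 2 ^ (u * w) := by exact_mod_cast hXc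
  have h5 : (2 : ℝ) ^ (w * (8 * u)) = 2 ^ (7 * u * w) * 2 ^ (u * w) := by
    rw [← pow_add]
    congr 1
    ring
  rw [h5, ← mul_assoc] at h1
  have h6 : (0 : ℝ) < 2 ^ (u * w) := by positivity
  exact (mul_le_iff_le_one_left h6).1 (h1.trans h3)

end Pool.Agent.H97.SN
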