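import Pool.Agent.H97.SN.Wun

/-!
# A family of multipliers and all comparison numbers at once, arbitrary laws

`X` is a finite family of vectors of multipliers `x i ≤ 2 ^ r` with at most `s` nonzero entries.
-/

set_option autoImplicit false

namespace Pool.Agent.H97.SN

open Pool.Agent.H92.SR Pool.Agent.H97.SM

theorem xsum_le {n s r b : ℕ} {x V : Fin n → ℕ} (hx : ∀ i, x i ≤ 2 ^ r)
    (hs : (Finset.univ.filter fun i => x i ≠ 0).card ≤ s) (hV : ∀ i, V i ≤ 2 ^ b) :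
    ∑ i, √((x i ^ 2 * V i : ℕ) : ℝ) + 1 ≤ 2 ^ (s + r + b) := by
  have h1 : ∑ i, √((x i ^ 2 * V i : ℕ) : ℝ) ≤ s * 2 ^ (r + b) := by
    have h0 : ∀ i : Fin n, √((x i ^ 2 * V i : ℕ) : ℝ) ≤ if x i ≠ 0 then (2 : ℝ) ^ (r + b) else 0 := by
      intro i
      by_cases h : x i = 0
      · rw [if_neg (not_not.2 h), h]
        simp
      · rw [if_pos h]
        exact term_le (hx i) (hV i)
    refine (Finset.sum_le_sum fun i _ => h0 i).trans ?_
    rw [← Finset.sum_filter, Finset.sum_const, nsmul_eq_mul]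
    refine mul_le_mul_of_nonneg_right ?_ (by positivity)
    exact_mod_cast hs
  have h2 : (s : ℝ) + 1 ≤ 2 ^ s := by
    exact_mod_cast (Nat.lt_two_pow_self (n := s))
  have h3 : (1 : ℝ) ≤ 2 ^ (r + b) := one_le_pow₀ (by norm_num)
  have h4 : (2 : ℝ) ^ (s + r + b) = 2 ^ s * 2 ^ (r + b) := by
    rw [add_assoc, pow_add]
  rw [h4]
  have h5 := mul_le_mul_of_nonneg_right h2 (by positivity : (0 : ℝ) ≤ 2 ^ (r + b))
  linarith

open Classical in
theorem xuni {n s r b w u : ℕ} {A : Fin n → Finset ℕ} {ω : Fin n → ℕ → ℝ}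
    (hω : ∀ i, ∀ y ∈ A i, 0 ≤ ω i y ∧ ω i y * 2 ^ w ≤ 1)
    (hω1 : ∀ i, ∑ y ∈ A i, ω i y = 1) (huw : (16 * u) ^ 2 ≤ 2 ^ w)
    (hA : ∀ i, ∀ y ∈ A i, 1 ≤ y ∧ y ≤ 2 ^ b) (X : Finset (Fin n → ℕ))
    (hX : ∀ x ∈ X, (∀ i, x i ≤ 2 ^ r) ∧ (Finset.univ.filter fun i => x i ≠ 0).card ≤ s) :
    (∑ a ∈ (Fintype.piFinset A).filter fun a => ∃ x : Fin n → ℕ, (∀ i, x i ≤ 2 ^ r) ∧ x ∈ X ∧
      ∃ J : Finset (Fin n), J.card = 16 * u ∧ (∀ i ∈ J, x i ≠ 0) ∧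
      Set.InjOn (fun i => sf (x i ^ 2 * a i)) J ∧ ∃ k < 2 ^ (s + r + b),
      |EE (List.ofFn fun i => x i ^ 2 * a i) k| *
        2 ^ (1 + (s + r + b + 1) * 4 ^ (16 * u)) < 1, ∏ i, ω i (a i)) *
      2 ^ (w * (8 * u)) ≤ (X.card : ℝ) * 2 ^ (2 * s + r + b) := by
  obtain ⟨I, hI⟩ : ∃ I : Finset ((Σ _ : Fin n → ℕ, Finset (Fin n)) × ℕ),
      I = (X.sigma fun x => (Finset.univ.filter fun i => x i ≠ 0).powerset) ×ˢ
        Finset.range (2 ^ (s + r + b)) := ⟨_, rfl⟩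
  obtain ⟨Q, hQ⟩ : ∃ Q : (Σ _ : Fin n → ℕ, Finset (Fin n)) × ℕ → (Fin n → ℕ) → Prop,
      Q = fun p a => p.1.2.card = 16 * u ∧ (∀ i ∈ p.1.2, p.1.1 i ≠ 0) ∧
        Set.InjOn (fun i => sf (p.1.1 i ^ 2 * a i)) p.1.2 ∧
        |EE (List.ofFn fun i => p.1.1 i ^ 2 * a i) p.2| *
        2 ^ (1 + (s + r + b + 1) * 4 ^ (16 * u)) < 1 := ⟨_, rfl⟩
  have hW0 : ∀ a ∈ Fintype.piFinset A, 0 ≤ ∏ i, ω i (a i) := fun a ha =>
    Finset.prod_nonneg fun i _ => (hω i _ (Fintype.mem_piFinset.1 ha i)).1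
  have hub := ubd (Fintype.piFinset A) I
    (fun a => ∃ x : Fin n → ℕ, (∀ i, x i ≤ 2 ^ r) ∧ x ∈ X ∧
      ∃ J : Finset (Fin n), J.card = 16 * u ∧ (∀ i ∈ J, x i ≠ 0) ∧
      Set.InjOn (fun i => sf (x i ^ 2 * a i)) J ∧ ∃ k < 2 ^ (s + r + b),
      |EE (List.ofFn fun i => x i ^ 2 * a i) k| *
        2 ^ (1 + (s + r + b + 1) * 4 ^ (16 * u)) < 1) Q (fun a => ∏ i, ω i (a i)) hW0 (by
    rintro a - ⟨x, -, hx, J, hJ, hJx, hinj, k, hk, h2⟩
    rw [hQ, hI]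
    refine ⟨(⟨x, J⟩, k), ?_, hJ, hJx, hinj, h2⟩
    rw [Finset.mem_product, Finset.mem_sigma, Finset.mem_powerset]
    refine ⟨⟨hx, fun i hi => ?_⟩, Finset.mem_range.2 hk⟩
    rw [Finset.mem_filter]
    exact ⟨Finset.mem_univ i, hJx i hi⟩)
  have hone : ∀ p ∈ I, (∑ a ∈ (Fintype.piFinset A).filter (Q p), ∏ i, ω i (a i)) *
        2 ^ (w * (8 * u)) ≤ 1 := by
    intro p hp
    rw [hI, Finset.mem_product, Finset.mem_sigma] at hp
    obtain ⟨hx, hs⟩ := hX _ hp.1.1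
    have hs1 := xsum_le hx hs (V := fun _ => 2 ^ b) (b := b) fun _ => le_rfl
    by_cases h0 : p.1.2.card = 16 * u ∧ ∀ i ∈ p.1.2, p.1.1 i ≠ 0
    · refine le_trans (mul_le_mul_of_nonneg_right ?_ (by positivity))
        (wprob (V := fun _ => 2 ^ b) (x := p.1.1) hω hω1 h0.1 huw
        (fun i hi => Nat.pos_of_ne_zero (h0.2 i hi)) hA p.2 (b := s + r + b + 1) ?_)
      · refine Finset.sum_le_sum_of_subset_of_nonneg ?_ fun a ha _ =>
          hW0 a (Finset.mem_filter.1 ha).1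
        intro a ha
        rw [Finset.mem_filter, hQ] at ha
        rw [Finset.mem_filter]
        exact ⟨ha.1, ha.2.2.2⟩
      · rw [← Finset.mul_sum, pow_succ]
        linarith
    · have he : (Fintype.piFinset A).filter (Q p) = ∅ := by
        rw [Finset.filter_eq_empty_iff, hQ]
        intro a _ h
        exact h0 ⟨h.1, h.2.1⟩
      rw [he, Finset.sum_empty, zero_mul]
      exact zero_le_one
  have hI1 : I.card ≤ X.card * 2 ^ (2 * s + r + b) := by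
    rw [hI, Finset.card_product, Finset.card_range, Finset.card_sigma]
    have h1 : ∑ x ∈ X, ((Finset.univ.filter fun i => x i ≠ 0).powerset).card ≤ X.card * 2 ^ s := by
      rw [← smul_eq_mul]
      refine Finset.sum_le_card_nsmul _ _ _ fun x hx => ?_
      rw [Finset.card_powerset]
      exact Nat.pow_le_pow_right (by norm_num) (hX x hx).2
    refine (Nat.mul_le_mul_right _ h1).trans (le_of_eq ?_)
    rw [mul_assoc, ← pow_add]
    congr 2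
    ring
  have h8 : (0 : ℝ) ≤ 2 ^ (w * (8 * u)) := by positivity
  refine (mul_le_mul_of_nonneg_right hub h8).trans ?_
  rw [Finset.sum_mul]
  refine (Finset.sum_le_sum hone).trans ?_
  rw [Finset.sum_const, nsmul_eq_mul, mul_one]
  exact_mod_cast hI1

end Pool.Agent.H97.SN
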